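import Pool.Agent.MP_129fce_an.Defs

/-! A necessary condition for zero sets of the Gevrey class. -/

namespace Pool.Agent.MP_129fce_an

open Metric Filter Topology Set Real MeasureTheory

/-- One step of the Taylor estimate at a boundary point. -/
theorem taylor_step {g : ℂ → ℂ} (hg : AnalyticOnNhd ℂ g (ball 0 1)) {ζ : ℂ} (hζ : ‖ζ‖ = 1)
    (h0 : Tendsto g (𝓝[ball 0 1] ζ) (𝓝 0)) {M : ℝ} (hM : 0 ≤ M) (k : ℕ)
    (hb : ∀ w ∈ ball (0 : ℂ) 1, ‖deriv g w‖ ≤ M * ‖w - ζ‖ ^ k / k.factorial) :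
    ∀ z ∈ ball (0 : ℂ) 1, ‖g z‖ ≤ M * ‖z - ζ‖ ^ (k + 1) / (k + 1).factorial := by
  intro z hz
  let γ : ℝ → ℂ := fun t => ζ + (t : ℂ) * (z - ζ)
  have hγ : ∀ t ∈ Ioc (0 : ℝ) 1, γ t ∈ ball (0 : ℂ) 1 := by
    intro t ht
    have e : γ t = ((1 - t : ℝ) : ℂ) * ζ + (t : ℂ) * z := by simp only [γ]; push_cast; ring
    rw [mem_ball_zero_iff] at hz ⊢
    rw [e]
    calc ‖((1 - t : ℝ) : ℂ) * ζ + (t : ℂ) * z‖ ≤ ‖((1 - t : ℝ) : ℂ) * ζ‖ + ‖(t : ℂ) * z‖ :=
          norm_add_le _ _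
      _ = (1 - t) + t * ‖z‖ := by
          rw [norm_mul, norm_mul, hζ, Complex.norm_real, Complex.norm_real, Real.norm_eq_abs,
            Real.norm_eq_abs, abs_of_nonneg (by linarith [ht.2]), abs_of_pos ht.1]; ring
      _ < 1 := by nlinarith [ht.1]
  have hγd : ∀ t : ℝ, HasDerivAt γ (z - ζ) t := by
    intro t
    have := ((Complex.ofRealCLM.hasDerivAt (x := t)).mul_const (z - ζ)).const_add ζ
    simpa only [Complex.ofRealCLM_apply, Complex.ofReal_one, one_mul] using this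
  have hφ : ∀ t ∈ Ioc (0 : ℝ) 1, HasDerivAt (fun t => g (γ t)) (deriv g (γ t) * (z - ζ)) t := by
    intro t ht
    exact (hg _ (hγ t ht)).differentiableAt.hasDerivAt.comp_of_eq t (hγd t) rfl
  have hnorm : ∀ t : ℝ, 0 ≤ t → ‖γ t - ζ‖ = t * ‖z - ζ‖ := by
    intro t ht
    simp only [γ, add_sub_cancel_left, norm_mul, Complex.norm_real, Real.norm_eq_abs,
      abs_of_nonneg ht]
  set ρ := ‖z - ζ‖ with hρ
  have hρ0 : 0 ≤ ρ := norm_nonneg _
  have key : ∀ s ∈ Ioc (0 : ℝ) 1, ‖g z - g (γ s)‖ ≤ M * ρ ^ (k + 1) / (k + 1).factorial := by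
    intro s hs
    have hsub : ∀ t ∈ Icc s 1, t ∈ Ioc (0 : ℝ) 1 := fun t ht => ⟨hs.1.trans_le ht.1, ht.2⟩
    have := image_norm_le_of_norm_deriv_right_le_deriv_boundary
      (f := fun t => g (γ t) - g (γ s)) (a := s) (b := 1)
      (f' := fun t => deriv g (γ t) * (z - ζ))
      (B := fun t => M * ρ ^ (k + 1) / (k + 1).factorial * t ^ (k + 1))
      (B' := fun t => M * ρ ^ (k + 1) / (k + 1).factorial * (((k + 1 : ℕ) : ℝ) * t ^ k))
      (fun t ht => ((hφ t (hsub t ht)).continuousAt.sub continuousAt_const).continuousWithinAt)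
      (fun t ht => ((hφ t (hsub t ⟨ht.1, ht.2.le⟩)).sub_const _).hasDerivWithinAt)
      (by
        simp only [sub_self, norm_zero]
        have := hs.1
        positivity)
      (fun t => by simpa using (hasDerivAt_pow (k + 1) t).const_mul _)
      (fun t ht => by
        have ht' := hsub t ⟨ht.1, ht.2.le⟩
        have h1 := hb _ (hγ t ht')
        rw [hnorm t ht'.1.le] at h1
        rw [norm_mul, ← hρ]
        calc ‖deriv g (γ t)‖ * ρ ≤ M * (t * ρ) ^ k / k.factorial * ρ := by gcongr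
          _ = M * ρ ^ (k + 1) / (k + 1).factorial * (((k + 1 : ℕ) : ℝ) * t ^ k) := by
            rw [Nat.factorial_succ]; push_cast
            have : (k.factorial : ℝ) ≠ 0 := by positivity
            field_simp
            ring)
      (x := 1) ⟨hs.2, le_rfl⟩
    have e1 : γ 1 = z := by simp [γ]
    simpa [e1] using this
  have hlim : Tendsto (fun s => ‖g z - g (γ s)‖) (𝓝[>] 0) (𝓝 ‖g z - 0‖) := by
    refine (tendsto_const_nhds.sub (h0.comp ?_)).norm
    refine tendsto_nhdsWithin_iff.2 ⟨?_, ?_⟩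
    · have : Tendsto γ (𝓝 0) (𝓝 (γ 0)) := (hγd 0).continuousAt
      simp only [γ, Complex.ofReal_zero, zero_mul, add_zero] at this
      exact this.mono_left nhdsWithin_le_nhds
    · filter_upwards [Ioc_mem_nhdsGT (zero_lt_one' ℝ)] with t ht using hγ t ht
  rw [sub_zero] at hlim
  refine le_of_tendsto hlim ?_
  filter_upwards [Ioc_mem_nhdsGT (zero_lt_one' ℝ)] with t ht using key t ht

theorem analytic_iteratedDeriv {f : ℂ → ℂ} (hf : AnalyticOnNhd ℂ f (ball 0 1)) (n : ℕ) :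
    AnalyticOnNhd ℂ (iteratedDeriv n f) (ball 0 1) := by
  rw [iteratedDeriv_eq_iterate]; exact hf.iterated_deriv n

theorem taylor_bound {f : ℂ → ℂ} (hf : AnalyticOnNhd ℂ f (ball 0 1)) {ζ : ℂ} (hζ : ‖ζ‖ = 1)
    (h0 : ∀ n, Tendsto (iteratedDeriv n f) (𝓝[ball 0 1] ζ) (𝓝 0)) (n : ℕ) {M : ℝ} (hM : 0 ≤ M)
    (hb : ∀ w ∈ ball (0 : ℂ) 1, ‖iteratedDeriv n f w‖ ≤ M) :
    ∀ z ∈ ball (0 : ℂ) 1, ‖f z‖ ≤ M * ‖z - ζ‖ ^ n / n.factorial := by
  have : ∀ k m : ℕ, m + k = n → ∀ z ∈ ball (0 : ℂ) 1,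
      ‖iteratedDeriv m f z‖ ≤ M * ‖z - ζ‖ ^ k / k.factorial := by
    intro k
    induction k with
    | zero => intro m hm z hz; simp only [add_zero] at hm; subst hm; simpa using hb z hz
    | succ k ih =>
      intro m hm
      apply taylor_step (analytic_iteratedDeriv hf m) hζ (h0 m) hM
      rw [← iteratedDeriv_succ]
      exact ih (m + 1) (by omega)
  simpa using this n 0 (by simp)

/-- Decay of a flat Gevrey function. -/
theorem gevrey_decay {α : ℝ} (hα : 0 < α) {f : ℂ → ℂ} (hf : InGevreyClass α f) :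
    ∃ B c : ℝ, 0 < c ∧ (∀ z ∈ ball (0 : ℂ) 1, ‖f z‖ ≤ exp B) ∧
      ∀ ζ : ℂ, ‖ζ‖ = 1 → (∀ n, Tendsto (iteratedDeriv n f) (𝓝[ball 0 1] ζ) (𝓝 0)) →
        ∀ z ∈ ball (0 : ℂ) 1, ∀ d : ℝ, 0 < d → ‖z - ζ‖ ≤ d → ‖f z‖ ≤ exp (B - c * d ^ (-α)) := by
  obtain ⟨hfa, C₀, hC₀⟩ := hf
  obtain ⟨C, hC1, hC⟩ : ∃ C : ℝ, 1 ≤ C ∧ ∀ n : ℕ, ∀ z ∈ ball (0 : ℂ) 1,
      ‖iteratedDeriv n f z‖ ≤ C ^ (n + 1) * (n.factorial : ℝ) ^ (1 + 1 / α) := by
    refine ⟨max |C₀| 1, le_max_right _ _, fun n z hz => (hC₀ n z hz).trans ?_⟩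
    refine mul_le_mul_of_nonneg_right ?_ (by positivity)
    calc C₀ ^ (n + 1) ≤ |C₀ ^ (n + 1)| := le_abs_self _
      _ = |C₀| ^ (n + 1) := abs_pow _ _
      _ ≤ _ := by gcongr; exact le_max_left _ _
  have hCpos : 0 < C := by linarith
  refine ⟨log C + 1, (exp 1 * C) ^ (-α), by positivity, fun z hz => ?_, ?_⟩
  · have := hC 0 z hz
    simp only [iteratedDeriv_zero, zero_add, pow_one, Nat.factorial_zero, Nat.cast_one, one_rpow,
      mul_one] at this
    rw [exp_add, exp_log hCpos]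
    nlinarith [add_one_le_exp (1 : ℝ)]
  intro ζ hζ h0 z hz d hd hzd
  set x : ℝ := (exp 1 * C * d) ^ (-α) with hx
  have hx0 : 0 < x := by positivity
  set n : ℕ := ⌊x⌋₊ with hn
  have h1 := taylor_bound hfa hζ h0 n (by positivity) (hC n) z hz
  have hfac : (0 : ℝ) < n.factorial := by positivity
  have h2 : (n.factorial : ℝ) ^ (1 + 1 / α) = n.factorial * (n.factorial : ℝ) ^ (1 / α) := by
    rw [rpow_add hfac, rpow_one]
  have h3 : (n.factorial : ℝ) ^ (1 / α) ≤ ((n : ℝ) ^ (1 / α)) ^ n := by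
    have : (n.factorial : ℝ) ≤ (n : ℝ) ^ n := by exact_mod_cast Nat.factorial_le_pow n
    calc (n.factorial : ℝ) ^ (1 / α) ≤ ((n : ℝ) ^ n) ^ (1 / α) := by gcongr
      _ = ((n : ℝ) ^ (1 / α)) ^ n := by
        rw [← rpow_natCast, ← rpow_natCast, ← rpow_mul (by positivity),
          ← rpow_mul (by positivity), mul_comm]
  have h4 : (n : ℝ) ^ (1 / α) ≤ (exp 1 * C * d)⁻¹ := by
    calc (n : ℝ) ^ (1 / α) ≤ x ^ (1 / α) := by gcongr; exact Nat.floor_le hx0.le
      _ = (exp 1 * C * d)⁻¹ := by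
        rw [hx, ← rpow_mul (by positivity), show -α * (1 / α) = -1 by field_simp, rpow_neg_one]
  have h5 : ‖f z‖ ≤ C * (exp (-1)) ^ n := by
    calc ‖f z‖ ≤ C ^ (n + 1) * (n.factorial : ℝ) ^ (1 + 1 / α) * ‖z - ζ‖ ^ n / n.factorial := h1
      _ = C * (C ^ n * (n.factorial : ℝ) ^ (1 / α) * ‖z - ζ‖ ^ n) := by
        rw [h2]; field_simp; ring
      _ ≤ C * (C ^ n * ((exp 1 * C * d)⁻¹) ^ n * d ^ n) := by
        gcongr
        exact h3.trans (by gcongr)
      _ = C * (exp (-1)) ^ n := by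
        rw [← mul_pow, ← mul_pow, exp_neg]; congr 2; field_simp
  have h6 : x = (exp 1 * C) ^ (-α) * d ^ (-α) := by
    rw [hx, mul_rpow (by positivity) hd.le]
  rw [← h6]
  refine h5.trans ?_
  rw [← exp_nat_mul, sub_eq_add_neg, add_assoc, exp_add, exp_log hCpos]
  gcongr
  have := Nat.lt_floor_add_one x
  linarith

/-- Lower bound from Jensen's formula. -/
theorem jensen_lower {f : ℂ → ℂ} (hf : AnalyticOnNhd ℂ f (ball 0 1)) :
    ∃ K : ℝ, ∀ r : ℝ, 1 / 2 ≤ r → r < 1 → -K ≤ circleAverage (fun z => log ‖f z‖) 0 r := by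
  refine ⟨((meromorphicOrderAt f 0).untop₀ : ℤ) * log 2 - log ‖meromorphicTrailingCoeffAt f 0‖,
    fun r hr hr1 => ?_⟩
  have hr0 : 0 < r := by linarith
  have hfa : AnalyticOnNhd ℂ f (closedBall 0 |r|) :=
    hf.mono (by rw [abs_of_pos hr0]; exact closedBall_subset_ball hr1)
  rw [hfa.meromorphicOn.circleAverage_log_norm hr0.ne']
  have h1 : 0 ≤ ∑ᶠ u, (MeromorphicOn.divisor f (closedBall 0 |r|) u : ℝ) *
      log (r * ‖0 - u‖⁻¹) := by
    refine finsum_nonneg fun u => ?_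
    by_cases hu : u ∈ closedBall (0 : ℂ) |r|
    · refine mul_nonneg (by exact_mod_cast MeromorphicOn.AnalyticOnNhd.divisor_nonneg hfa u) ?_
      by_cases hu0 : u = 0
      · simp [hu0]
      · apply log_nonneg
        rw [mem_closedBall_zero_iff, abs_of_pos hr0] at hu
        rw [zero_sub, norm_neg, ← div_eq_mul_inv, one_le_div (norm_pos_iff.2 hu0)]
        exact hu
    · simp [MeromorphicOn.divisor, hu]
  have h0 : (0 : ℂ) ∈ closedBall (0 : ℂ) |r| := by simp
  have h2 : MeromorphicOn.divisor f (closedBall 0 |r|) 0 = (meromorphicOrderAt f 0).untop₀ :=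
    MeromorphicOn.divisor_apply hfa.meromorphicOn h0
  have h3 : (0 : ℝ) ≤ ((meromorphicOrderAt f 0).untop₀ : ℤ) := by
    rw [← h2]; exact_mod_cast MeromorphicOn.AnalyticOnNhd.divisor_nonneg hfa 0
  have h4 : -log 2 ≤ log r := by
    rw [← log_inv]; exact log_le_log (by norm_num) (by linarith)
  rw [h2]
  nlinarith [mul_le_mul_of_nonneg_left h4 h3]

/-- Criterion: a set which is too dense along a family of disjoint arcs is not a zero set. -/
theorem not_zeroSet {α : ℝ} (hα : 0 < α) {E : Set ℂ} (a b d : ℕ → ℝ)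
    (ha : ∀ j, 0 ≤ a j) (hab : ∀ j, a j ≤ b j) (hb : ∀ j, b j ≤ 2 * π)
    (hdisj : ∀ i j, i < j → b j ≤ a i) (hd : ∀ j, 0 < d j)
    (hE : ∀ j, ∀ θ ∈ Ico (a j) (b j), ∃ e ∈ E, ‖circleMap 0 1 θ - e‖ ≤ d j)
    (hdiv : ¬ Summable fun j => (b j - a j) * d j ^ (-α)) : ¬ IsGevreyZeroSet α E := by
  rintro ⟨hEs, f, hf, ⟨z0, hz0, hfz0⟩, hflat⟩
  obtain ⟨B, c, hc, hB, hdec⟩ := gevrey_decay hα hf
  obtain ⟨K, hK⟩ := jensen_lower hf.1
  apply hdiv
  have hnn : ∀ j, 0 ≤ (b j - a j) * d j ^ (-α) := fun j =>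
    mul_nonneg (sub_nonneg.2 (hab j)) (rpow_nonneg (hd j).le _)
  refine summable_of_sum_range_le hnn (c := 2 * π * (B + K) / (c * 2 ^ (-α))) fun J => ?_
  -- choose the radius
  obtain ⟨ε, hε, hε1, hεd⟩ : ∃ ε : ℝ, 0 < ε ∧ ε ≤ 1 / 2 ∧ ∀ j < J, ε ≤ d j := by
    induction J with
    | zero => exact ⟨1 / 2, by norm_num, le_rfl, fun j hj => absurd hj (by simp)⟩
    | succ J ih =>
      obtain ⟨ε, h1, h2, h3⟩ := ih
      refine ⟨min ε (d J), lt_min h1 (hd J), (min_le_left _ _).trans h2, fun j hj => ?_⟩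
      rcases Nat.lt_succ_iff_lt_or_eq.1 hj with h | h
      · exact (min_le_left _ _).trans (h3 j h)
      · subst h; exact min_le_right _ _
  set r := 1 - ε with hr
  have hr0 : 0 < r := by linarith
  have hr1 : r < 1 := by linarith
  have hsph : sphere (0 : ℂ) |r| ⊆ ball 0 1 := by
    rw [abs_of_pos hr0]; exact sphere_subset_closedBall.trans (closedBall_subset_ball hr1)
  have hmem : ∀ θ, circleMap 0 r θ ∈ ball (0 : ℂ) 1 := fun θ => hsph (circleMap_mem_sphere' _ _ _)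
  have hne : ∀ᶠ z in codiscreteWithin (sphere (0 : ℂ) |r|), f z ≠ 0 := by
    rcases hf.1.eqOn_zero_or_eventually_ne_zero_of_preconnected
      (convex_ball (0 : ℂ) 1).isPreconnected with h | h
    · exact absurd (h hz0) hfz0
    · exact codiscreteWithin_mono hsph h
  have hae : ∀ᵐ θ ∂(volume.restrict (Icc 0 (2 * π))), f (circleMap 0 r θ) ≠ 0 := by
    apply ae_restrict_le_codiscreteWithin measurableSet_Icc
    exact codiscreteWithin_mono (by tauto) (circleMap_preimage_codiscrete hr0.ne' hne)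
  let w : ℕ → ℝ := fun j => c * (2 * d j) ^ (-α)
  let G : ℝ → ℝ := fun θ => B - ∑ j ∈ Finset.range J, (Ico (a j) (b j)).indicator (fun _ => w j) θ
  have hind : ∀ j, IntervalIntegrable ((Ico (a j) (b j)).indicator (fun _ => w j)) volume 0 (2 * π) :=
    fun j => ((integrable_indicator_iff measurableSet_Ico).2
      (integrableOn_const (by simp))).intervalIntegrable
  have hSi : IntervalIntegrable
      (fun θ => ∑ j ∈ Finset.range J, (Ico (a j) (b j)).indicator (fun _ => w j) θ)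
      volume 0 (2 * π) := by
    have := IntervalIntegrable.sum (μ := volume) (a := 0) (b := 2 * π) (Finset.range J)
      (fun j _ => hind j)
    rwa [Finset.sum_fn] at this
  have hGi : IntervalIntegrable G volume 0 (2 * π) := intervalIntegrable_const.sub hSi
  have hint : ∀ j, ∫ θ in (0 : ℝ)..2 * π, (Ico (a j) (b j)).indicator (fun _ => w j) θ
      = (b j - a j) * w j := by
    intro j
    rw [intervalIntegral.integral_of_le two_pi_pos.le, ← integral_Icc_eq_integral_Ioc,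
      setIntegral_indicator measurableSet_Ico,
      inter_eq_right.2 (show Ico (a j) (b j) ⊆ Icc 0 (2 * π) from
        fun x hx => ⟨(ha j).trans hx.1, hx.2.le.trans (hb j)⟩)]
    simp [hab j]
  have hG : ∫ θ in (0 : ℝ)..2 * π, G θ = 2 * π * B - ∑ j ∈ Finset.range J, (b j - a j) * w j := by
    simp only [G]
    rw [intervalIntegral.integral_sub intervalIntegrable_const hSi,
      intervalIntegral.integral_finsetSum (fun j _ => hind j)]
    simp [hint]
  have hle : ∀ θ, f (circleMap 0 r θ) ≠ 0 → log ‖f (circleMap 0 r θ)‖ ≤ G θ := by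
    intro θ hθ
    rw [log_le_iff_le_exp (norm_pos_iff.2 hθ)]
    by_cases hex : ∃ j < J, θ ∈ Ico (a j) (b j)
    · obtain ⟨j, hj, hθj⟩ := hex
      have : G θ = B - w j := by
        simp only [G]
        rw [Finset.sum_eq_single j, indicator_of_mem hθj]
        · intro i _ hij
          apply indicator_of_notMem
          intro hi
          rcases lt_or_gt_of_ne hij with h | h
          · linarith [hdisj i j h, hi.1, hθj.2]
          · linarith [hdisj j i h, hi.2, hθj.1]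
        · intro h; exact absurd (Finset.mem_range.2 hj) h
      rw [this]
      obtain ⟨e, he, hed⟩ := hE j θ hθj
      refine hdec e (by simpa using hEs he) (fun n => hflat n e he) _ (hmem θ) _
        (by linarith [hd j]) ?_
      have h1 : ‖circleMap 0 r θ - circleMap 0 1 θ‖ = ε := by
        have : circleMap 0 r θ - circleMap 0 1 θ = circleMap 0 (-ε) θ := by
          simp only [circleMap, hr]; push_cast; ring
        rw [this, norm_circleMap_zero, abs_neg, abs_of_pos hε]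
      calc ‖circleMap 0 r θ - e‖ ≤ ‖circleMap 0 r θ - circleMap 0 1 θ‖ + ‖circleMap 0 1 θ - e‖ :=
            norm_sub_le_norm_sub_add_norm_sub _ _ _
        _ ≤ 2 * d j := by linarith [hεd j hj]
    · have : G θ = B := by
        simp only [G]
        rw [Finset.sum_eq_zero, sub_zero]
        intro i hi
        exact indicator_of_notMem (fun h => hex ⟨i, Finset.mem_range.1 hi, h⟩) _
      rw [this]
      exact hB _ (hmem θ)
  have hci : CircleIntegrable (fun z => log ‖f z‖) 0 r :=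
    (hf.1.mono hsph).meromorphicOn.circleIntegrable_log_norm
  have hmono : ∫ θ in (0 : ℝ)..2 * π, log ‖f (circleMap 0 r θ)‖ ≤ ∫ θ in (0 : ℝ)..2 * π, G θ := by
    refine intervalIntegral.integral_mono_ae_restrict two_pi_pos.le hci hGi ?_
    filter_upwards [hae] with θ hθ using hle θ hθ
  have hK' := hK r (by linarith) hr1
  rw [circleAverage, smul_eq_mul, le_inv_mul_iff₀ two_pi_pos] at hK'
  rw [le_div_iff₀ (by positivity), Finset.sum_mul]
  have : ∀ j ∈ Finset.range J, (b j - a j) * d j ^ (-α) * (c * 2 ^ (-α)) = (b j - a j) * w j := by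
    intro j _
    simp only [w]
    rw [mul_rpow (by norm_num) (hd j).le]; ring
  rw [Finset.sum_congr rfl this]
  linarith

end Pool.Agent.MP_129fce_an
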