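import Pool.Agent.MP_129fce_an.Peak
import Pool.Agent.MP_129fce_an.Gevrey

/-! The explicit set. -/

namespace Pool.Agent.MP_129fce_an

open Metric Filter Topology Set Real

theorem chord_eq (a b : ℝ) : ‖circleMap 0 1 a - circleMap 0 1 b‖ = 2 * |sin ((a - b) / 2)| := by
  have : circleMap 0 1 a - circleMap 0 1 b =
      circleMap 0 1 b * (Complex.exp (Complex.I * ((a - b : ℝ) : ℂ)) - 1) := by
    simp only [circleMap, Complex.ofReal_one, one_mul, zero_add, mul_sub, mul_one,
      ← Complex.exp_add]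
    congr 2; push_cast; ring
  rw [this, norm_mul, norm_circleMap_zero, abs_one, one_mul, Complex.norm_exp_I_mul_ofReal_sub_one]
  simp

theorem chord_le (a b : ℝ) : ‖circleMap 0 1 a - circleMap 0 1 b‖ ≤ |a - b| := by
  rw [chord_eq]
  have := abs_sin_le_abs (x := (a - b) / 2)
  rw [abs_div, abs_two] at this
  linarith

theorem chord_ge {a b : ℝ} (h : |a - b| ≤ 3) : |a - b| / 2 ≤ ‖circleMap 0 1 a - circleMap 0 1 b‖ := by
  rw [chord_eq]
  have h1 := mul_abs_le_abs_sin (x := (a - b) / 2) (by rw [abs_div, abs_two]; linarith [pi_gt_three])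
  rw [abs_div, abs_two] at h1
  have h2 : 1 / 2 ≤ 2 / π := by rw [div_le_div_iff₀ (by norm_num) pi_pos]; linarith [pi_le_four]
  nlinarith [abs_nonneg (a - b)]

theorem sum_le_of_injOn {S T : Finset ℕ} {f g : ℕ → ℝ} (e : ℕ → ℕ) (he : Set.InjOn e S)
    (hT : S.image e ⊆ T) (hfg : ∀ a ∈ S, f a = g (e a)) (hg : ∀ m ∈ T, m ∉ S.image e → 0 ≤ g m) :
    ∑ a ∈ S, f a ≤ ∑ m ∈ T, g m := by
  rw [Finset.sum_congr rfl hfg, ← Finset.sum_image he]
  exact Finset.sum_le_sum_of_subset_of_nonneg hT hg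

theorem sum_inv_dist_le (N k₀ : ℕ) (hk : k₀ < N) :
    ∑ k ∈ Finset.range N, |(k : ℝ) - k₀|⁻¹ ≤ 2 * (1 + log N) := by
  have hH : ∑ m ∈ Finset.Icc 1 N, (m : ℝ)⁻¹ ≤ 1 + log N := by
    have := harmonic_le_one_add_log N
    simpa [harmonic_eq_sum_Icc] using this
  have h1 : ∑ k ∈ (Finset.range N).filter (· < k₀), |(k : ℝ) - k₀|⁻¹ ≤
      ∑ m ∈ Finset.Icc 1 N, (m : ℝ)⁻¹ := by
    refine sum_le_of_injOn (fun k => k₀ - k) ?_ ?_ ?_ ?_
    · intro a ha b hb hab
      simp only [Finset.coe_filter, Finset.mem_range, mem_ofPred_eq] at ha hb hab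
      omega
    · intro m hm
      simp only [Finset.mem_image, Finset.mem_filter, Finset.mem_range] at hm
      obtain ⟨a, ha, rfl⟩ := hm
      simp only [Finset.mem_Icc]; omega
    · intro a ha
      simp only [Finset.mem_filter, Finset.mem_range] at ha
      rw [Nat.cast_sub ha.2.le, abs_sub_comm, abs_of_nonneg (by simpa using ha.2.le)]
    · intro m _ _; positivity
  have h2 : ∑ k ∈ (Finset.range N).filter (k₀ < ·), |(k : ℝ) - k₀|⁻¹ ≤
      ∑ m ∈ Finset.Icc 1 N, (m : ℝ)⁻¹ := by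
    refine sum_le_of_injOn (fun k => k - k₀) ?_ ?_ ?_ ?_
    · intro a ha b hb hab
      simp only [Finset.coe_filter, Finset.mem_range, mem_ofPred_eq] at ha hb hab
      omega
    · intro m hm
      simp only [Finset.mem_image, Finset.mem_filter, Finset.mem_range] at hm
      obtain ⟨a, ha, rfl⟩ := hm
      simp only [Finset.mem_Icc]; omega
    · intro a ha
      simp only [Finset.mem_filter, Finset.mem_range] at ha
      rw [Nat.cast_sub ha.2.le, abs_of_nonneg (by simpa using ha.2.le)]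
    · intro m _ _; positivity
  have h3 : ∑ k ∈ Finset.range N, |(k : ℝ) - k₀|⁻¹ =
      ∑ k ∈ (Finset.range N).filter (· < k₀), |(k : ℝ) - k₀|⁻¹ +
      ∑ k ∈ (Finset.range N).filter (k₀ < ·), |(k : ℝ) - k₀|⁻¹ := by
    rw [Finset.sum_filter, Finset.sum_filter, ← Finset.sum_add_distrib]
    refine Finset.sum_congr rfl fun k _ => ?_
    rcases lt_trichotomy k k₀ with h | h | h
    · simp [h, h.not_gt]
    · simp [h]
    · simp [h, h.not_gt]
  linarith

noncomputable def sj (j : ℕ) : ℝ := (1 / 8) ^ (j + 1)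
noncomputable def lam (α : ℝ) (j : ℕ) : ℝ := 8 * ((j : ℝ) + 1) ^ (1 / α)
noncomputable def del (α : ℝ) (j : ℕ) : ℝ := sj j ^ (1 / α) * lam α j
noncomputable def num (α : ℝ) (j : ℕ) : ℕ := ⌊2 * sj j / del α j⌋₊
abbrev Idx (α : ℝ) : Type := Σ j : ℕ, Fin (num α j)
noncomputable def ang (α : ℝ) (j k : ℕ) : ℝ := 2 * sj j + k * del α j
noncomputable def pt (α : ℝ) (i : Idx α) : ℂ := circleMap 0 1 (ang α i.1 i.2)
noncomputable def sc (α : ℝ) (i : Idx α) : ℝ := sj i.1

theorem sj_pos (j : ℕ) : 0 < sj j := by unfold sj; positivity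
theorem sj_le (j : ℕ) : sj j ≤ 1 / 8 := by
  unfold sj; rw [pow_succ]
  have : ((1 : ℝ) / 8) ^ j ≤ 1 := pow_le_one₀ (by norm_num) (by norm_num)
  linarith
theorem sj_lt {i j : ℕ} (h : i < j) : 8 * sj j ≤ sj i := by
  unfold sj
  have : ((1 : ℝ) / 8) ^ j ≤ (1 / 8) ^ (i + 1) := pow_le_pow_of_le_one (by norm_num) (by norm_num) h
  rw [pow_succ]; linarith

section
variable {α : ℝ} (h0 : 0 < α) (h1 : α < 1)
include h0 h1

theorem one_lt_beta : 1 < 1 / α := by rw [lt_div_iff₀ h0]; linarith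

theorem lam_ge (j : ℕ) : 8 * ((j : ℝ) + 1) ≤ lam α j := by
  unfold lam
  have : ((j : ℝ) + 1) ^ (1 : ℝ) ≤ ((j : ℝ) + 1) ^ (1 / α) := by
    gcongr
    · linarith [Nat.cast_nonneg (α := ℝ) j]
    · exact (one_lt_beta h0 h1).le
  rw [rpow_one] at this; linarith

theorem lam_ge8 (j : ℕ) : 8 ≤ lam α j := by
  linarith [lam_ge h0 h1 j, Nat.cast_nonneg (α := ℝ) j]

theorem del_pos (j : ℕ) : 0 < del α j :=
  mul_pos (rpow_pos_of_pos (sj_pos j) _) (by linarith [lam_ge8 h0 h1 j])

theorem num_mul (j : ℕ) : num α j * del α j ≤ 2 * sj j := by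
  rw [← le_div_iff₀ (del_pos h0 h1 j)]
  exact Nat.floor_le (div_nonneg (by linarith [sj_pos j]) (del_pos h0 h1 j).le)

theorem ang_ge (j k : ℕ) : 2 * sj j ≤ ang α j k :=
  le_add_of_nonneg_right (mul_nonneg (Nat.cast_nonneg _) (del_pos h0 h1 j).le)

theorem ang_le (j k : ℕ) (hk : k ≤ num α j) : ang α j k ≤ 4 * sj j := by
  have : (k : ℝ) * del α j ≤ num α j * del α j := by
    gcongr; exact (del_pos h0 h1 j).le
  unfold ang; linarith [num_mul h0 h1 j]

theorem pt_lo (i : Idx α) : sc α i ≤ ‖1 - pt α i‖ := by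
  have a1 := ang_ge h0 h1 i.1 i.2
  have a2 := ang_le h0 h1 i.1 i.2 i.2.2.le
  have a3 := sj_le i.1
  have a4 := sj_pos i.1
  have := chord_ge (a := 0) (b := ang α i.1 i.2) (by rw [zero_sub, abs_neg, abs_of_pos] <;> linarith)
  rw [zero_sub, abs_neg, abs_of_pos (by linarith)] at this
  simp only [circleMap_zero, Complex.ofReal_one, Complex.ofReal_zero, zero_mul, Complex.exp_zero,
    mul_one] at this
  simp only [sc, pt, circleMap_zero, Complex.ofReal_one]
  linarith

theorem pt_hi (i : Idx α) : ‖1 - pt α i‖ ≤ 4 * sc α i := by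
  have a1 := ang_ge h0 h1 i.1 i.2
  have a2 := ang_le h0 h1 i.1 i.2 i.2.2.le
  have a4 := sj_pos i.1
  have := chord_le 0 (ang α i.1 i.2)
  rw [zero_sub, abs_neg, abs_of_pos (by linarith)] at this
  simp only [circleMap_zero, Complex.ofReal_one, Complex.ofReal_zero, zero_mul, Complex.exp_zero,
    mul_one] at this
  simp only [sc, pt, circleMap_zero, Complex.ofReal_one]
  linarith

theorem rho_del (i : Idx α) : 8 * rho α (sc α) i ≤ del α i.1 := by
  have := lam_ge8 h0 h1 i.1
  have h2 : 0 < sj i.1 ^ (1 / α) := rpow_pos_of_pos (sj_pos _) _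
  simp only [rho, sc, del]; nlinarith

theorem rho_le (i : Idx α) : rho α (sc α) i ≤ sc α i / 4 := by
  have a1 := rho_del h0 h1 i
  have a2 := num_mul h0 h1 i.1
  have a3 : (1 : ℝ) ≤ num α i.1 := by exact_mod_cast i.2.pos
  have a4 := del_pos h0 h1 i.1
  simp only [sc] at *
  nlinarith

theorem near_unique (z : ℂ) (i k : Idx α) (hi : ‖z - pt α i‖ < sc α i / 4)
    (hk : ‖z - pt α k‖ < sc α k / 4) : i.1 = k.1 := by
  have gen : ∀ i k : Idx α, ‖z - pt α i‖ < sc α i / 4 → ‖z - pt α k‖ < sc α k / 4 →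
      ¬ i.1 < k.1 := by
    intro i k hi hk hlt
    have a1 := sj_lt hlt
    have a2 := pt_lo h0 h1 i
    have a3 := pt_hi h0 h1 k
    have a4 := norm_sub_le_norm_sub_add_norm_sub 1 z (pt α i)
    have a5 := norm_sub_le_norm_sub_add_norm_sub 1 (pt α k) z
    rw [norm_sub_rev (pt α k) z] at a5
    have := sj_pos k.1
    simp only [sc] at *
    linarith
  exact le_antisymm (not_lt.1 (gen k i hk hi)) (not_lt.1 (gen i k hi hk))

theorem pt_sep (j : ℕ) (k l : Fin (num α j)) :
    |(k : ℝ) - l| * del α j / 2 ≤ ‖pt α ⟨j, k⟩ - pt α ⟨j, l⟩‖ := by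
  have e : ang α j k - ang α j l = ((k : ℝ) - l) * del α j := by unfold ang; ring
  have := chord_ge (a := ang α j k) (b := ang α j l) (by
    rw [abs_le]
    constructor <;>
    linarith [ang_ge h0 h1 j k, ang_ge h0 h1 j l, ang_le h0 h1 j k k.2.le, ang_le h0 h1 j l l.2.le,
      sj_le j, sj_pos j])
  rwa [e, abs_mul, abs_of_pos (del_pos h0 h1 j)] at this

theorem core_unique (z : ℂ) (i k : Idx α) (hi : ‖z - pt α i‖ < rho α (sc α) i)
    (hk : ‖z - pt α k‖ < rho α (sc α) k) : i = k := by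
  have := near_unique h0 h1 z i k (hi.trans_le (rho_le h0 h1 i)) (hk.trans_le (rho_le h0 h1 k))
  obtain ⟨j, a⟩ := i
  obtain ⟨j', b⟩ := k
  simp only at this
  subst this
  by_contra hne
  have hab : (a : ℕ) ≠ b := fun h => hne (by rw [Fin.ext h])
  have a1 : (1 : ℝ) ≤ |(a : ℝ) - b| := by
    have : (1 : ℤ) ≤ |((a : ℕ) : ℤ) - (b : ℕ)| := Int.one_le_abs (by omega)
    exact_mod_cast this
  have a2 := pt_sep h0 h1 j a b
  have a3 := rho_del h0 h1 ⟨j, a⟩
  have a4 := rho_del h0 h1 ⟨j, b⟩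
  have a5 := norm_sub_le_norm_sub_add_norm_sub (pt α ⟨j, a⟩) z (pt α ⟨j, b⟩)
  rw [norm_sub_rev (pt α ⟨j, a⟩) z] at a5
  have a6 := del_pos h0 h1 j
  simp only at a3 a4
  nlinarith

theorem summable_cc (κ : ℝ) (hκ : 0 < κ) : Summable (cc α κ (sc α)) := by
  have hc : ∀ i : Idx α, 0 ≤ cc α κ (sc α) i := fun i =>
    div_nonneg (mul_nonneg hκ.le (rpow_nonneg (sj_pos _).le _)) (sj_pos _).le
  rw [summable_sigma_of_nonneg hc]
  refine ⟨fun j => (hasSum_fintype _).summable, ?_⟩
  have hs : Summable fun j : ℕ => κ / 4 * ((((j + 1 : ℕ) : ℝ)) ^ (1 / α))⁻¹ :=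
    ((summable_nat_add_iff 1).2 (summable_nat_rpow_inv.2 (one_lt_beta h0 h1))).mul_left _
  refine Summable.of_nonneg_of_le (fun j => tsum_nonneg fun k => hc _) (fun j => ?_) hs
  have e : ∑' k : Fin (num α j), cc α κ (sc α) ⟨j, k⟩ = num α j * (κ * sj j ^ (1 / α) / sj j) := by
    simp [tsum_fintype, cc, rho, sc]
  rw [e]
  have a1 := num_mul h0 h1 j
  have a2 := sj_pos j
  have a3 : 0 < ((j : ℝ) + 1) ^ (1 / α) := by positivity
  unfold del lam at a1
  push_cast
  rw [← div_eq_mul_inv, ← mul_div_assoc, div_le_div_iff₀ a2 a3]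
  nlinarith

theorem log_num_le (j : ℕ) : 1 + log (num α j) ≤ (1 + 7 * (1 / α)) * ((j : ℝ) + 1) := by
  have hb := one_lt_beta h0 h1
  have hj : (0 : ℝ) ≤ j := Nat.cast_nonneg j
  rcases Nat.eq_zero_or_pos (num α j) with h | h
  · rw [h]; simp only [Nat.cast_zero, log_zero, add_zero]; nlinarith
  have a1 := num_mul h0 h1 j
  have a2 := sj_pos j
  have a3 : 0 < sj j ^ (1 / α) := by positivity
  have a4 : (num α j : ℝ) ≤ (sj j ^ (1 / α))⁻¹ := by
    rw [← one_div, le_div_iff₀ a3]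
    have := lam_ge8 h0 h1 j
    have h5 : (0 : ℝ) ≤ num α j * sj j ^ (1 / α) := by positivity
    unfold del at a1
    nlinarith [sj_le j]
  have a5 : log (num α j) ≤ 1 / α * (((j : ℝ) + 1) * log 8) := by
    refine (log_le_log (by exact_mod_cast h) a4).trans_eq ?_
    rw [log_inv, log_rpow a2, sj, log_pow, one_div (8 : ℝ), log_inv]; push_cast; ring
  have a6 : log 8 ≤ 7 := by linarith [log_le_sub_one_of_pos (show (0 : ℝ) < 8 by norm_num)]
  have a7 : 1 / α * (((j : ℝ) + 1) * log 8) ≤ 1 / α * (((j : ℝ) + 1) * 7) := by gcongr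
  nlinarith

theorem home_sum (κ : ℝ) (hκ : 0 < κ) (z : ℂ) (j : ℕ) :
    ∑ k : Fin (num α j), nc α κ (pt α) (sc α) z ⟨j, k⟩ ≤ κ * (2 + 7 * (1 / α)) / sj j := by
  have a2 := sj_pos j
  have hb := one_lt_beta h0 h1
  rcases Nat.eq_zero_or_pos (num α j) with h | h
  · have : IsEmpty (Fin (num α j)) := by rw [h]; infer_instance
    simp only [Finset.univ_eq_empty, Finset.sum_empty]; positivity
  have : Nonempty (Fin (num α j)) := ⟨⟨0, h⟩⟩
  obtain ⟨k₀, -, hk₀⟩ := Finset.exists_min_image Finset.univ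
    (fun k : Fin (num α j) => ‖z - pt α ⟨j, k⟩‖) Finset.univ_nonempty
  have a3 : 0 < sj j ^ (1 / α) := by positivity
  have a4 := del_pos h0 h1 j
  have a5 : 0 < lam α j := by linarith [lam_ge8 h0 h1 j]
  have hpt : ∀ k : Fin (num α j), nc α κ (pt α) (sc α) z ⟨j, k⟩ ≤
      (if k = k₀ then κ / sj j else 0) + 4 * κ / (sj j * lam α j) * |(k : ℝ) - k₀|⁻¹ := by
    intro k
    by_cases hk : k = k₀
    · subst hk
      simp only [if_true, sub_self, abs_zero, inv_zero, mul_zero, add_zero, nc, cc, rho, sc]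
      split_ifs with hh
      · calc κ * sj j ^ (1 / α) / sj j / ‖z - pt α ⟨j, k⟩‖
            ≤ κ * sj j ^ (1 / α) / sj j / sj j ^ (1 / α) := by gcongr
          _ = κ / sj j := by field_simp
      · positivity
    · have hkk : 0 < |(k : ℝ) - k₀| := by
        rw [abs_pos, sub_ne_zero]
        exact fun hh => hk (Fin.ext (by exact_mod_cast hh))
      have b1 := pt_sep h0 h1 j k k₀
      have b2 := norm_sub_le_norm_sub_add_norm_sub (pt α ⟨j, k⟩) z (pt α ⟨j, k₀⟩)
      rw [norm_sub_rev (pt α ⟨j, k⟩) z] at b2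
      have b3 := hk₀ k (Finset.mem_univ _)
      have b4 : |(k : ℝ) - k₀| * del α j / 4 ≤ ‖z - pt α ⟨j, k⟩‖ := by linarith
      simp only [if_neg hk, zero_add, nc, cc, rho, sc]
      split_ifs with hh
      · calc κ * sj j ^ (1 / α) / sj j / ‖z - pt α ⟨j, k⟩‖
            ≤ κ * sj j ^ (1 / α) / sj j / (|(k : ℝ) - k₀| * del α j / 4) := by gcongr
          _ = _ := by unfold del; field_simp
      · positivity
  refine (Finset.sum_le_sum fun k _ => hpt k).trans ?_
  rw [Finset.sum_add_distrib, ← Finset.mul_sum, Finset.sum_ite_eq' Finset.univ k₀,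
    if_pos (Finset.mem_univ _),
    Fin.sum_univ_eq_sum_range (fun k : ℕ => |(k : ℝ) - (k₀ : ℕ)|⁻¹) (num α j)]
  have c1 := sum_inv_dist_le (num α j) k₀ k₀.2
  have c2 := log_num_le h0 h1 j
  have c3 := lam_ge h0 h1 j
  have c4 : ∑ k ∈ Finset.range (num α j), |(k : ℝ) - (k₀ : ℕ)|⁻¹ ≤ (1 + 7 * (1 / α)) * lam α j / 4 := by
    nlinarith
  calc _ ≤ κ / sj j + 4 * κ / (sj j * lam α j) * ((1 + 7 * (1 / α)) * lam α j / 4) := by gcongr
    _ = _ := by field_simp; ring

theorem exists_good : ∃ κ, Good α κ (pt α) (sc α) := by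
  classical
  have hb := one_lt_beta h0 h1
  have hM := summable_cc h0 h1 1 one_pos
  have hc1 : ∀ i : Idx α, 0 ≤ cc α 1 (sc α) i := fun i =>
    div_nonneg (mul_nonneg zero_le_one (rpow_nonneg (sj_pos _).le _)) (sj_pos _).le
  obtain ⟨M, hMdef⟩ : ∃ M, M = ∑' i, cc α 1 (sc α) i := ⟨_, rfl⟩
  have hM0 : 0 ≤ M := hMdef ▸ tsum_nonneg hc1
  obtain ⟨κ, hκ⟩ : ∃ κ, κ = 1 / (4 * (17 * M + 5 * (2 + 7 * (1 / α)))) := ⟨_, rfl⟩
  have hD : 0 < 17 * M + 5 * (2 + 7 * (1 / α)) := by positivity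
  have hκ0 : 0 < κ := by rw [hκ]; positivity
  refine ⟨κ, h0, h1.le, hκ0, ?_, fun i => by simp [pt], fun i => sj_pos _, pt_lo h0 h1,
    pt_hi h0 h1, fun i => by linarith [rho_le h0 h1 i, sj_pos i.1, show sc α i = sj i.1 from rfl],
    ?_, core_unique h0 h1, summable_cc h0 h1 κ hκ0, ?_⟩
  · rw [hκ, div_le_one (by positivity)]; nlinarith
  · intro z hz1 F
    have hτ : 0 < ‖1 - z‖ := norm_pos_iff.2 (sub_ne_zero.2 hz1.symm)
    have hnc0 : ∀ i, 0 ≤ nc α κ (pt α) (sc α) z i := by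
      intro i; unfold nc; split_ifs
      · exact div_nonneg (div_nonneg (mul_nonneg hκ0.le (rpow_nonneg (sj_pos _).le _))
          (sj_pos _).le) (norm_nonneg _)
      · exact le_rfl
    rw [← Finset.sum_filter_add_sum_filter_not F (fun i => ‖z - pt α i‖ < sc α i / 4)]
    have hnear : ∑ i ∈ F.filter (fun i => ‖z - pt α i‖ < sc α i / 4), nc α κ (pt α) (sc α) z i ≤
        κ * (5 * (2 + 7 * (1 / α))) / ‖1 - z‖ := by
      rcases (F.filter (fun i => ‖z - pt α i‖ < sc α i / 4)).eq_empty_or_nonempty with h | ⟨i₀, hi₀⟩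
      · rw [h, Finset.sum_empty]; positivity
      have hi₀' := (Finset.mem_filter.1 hi₀).2
      have hsub : F.filter (fun i => ‖z - pt α i‖ < sc α i / 4) ⊆
          Finset.univ.map (Function.Embedding.sigmaMk (β := fun j => Fin (num α j)) i₀.1) := by
        rintro ⟨j, k⟩ hi
        have := near_unique h0 h1 z _ _ (Finset.mem_filter.1 hi).2 hi₀'
        simp only at this
        subst this
        exact Finset.mem_map.2 ⟨k, Finset.mem_univ _, rfl⟩
      refine (Finset.sum_le_sum_of_subset_of_nonneg hsub fun i _ _ => hnc0 i).trans ?_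
      rw [Finset.sum_map]
      refine (home_sum h0 h1 κ hκ0 z i₀.1).trans ?_
      have a3 := pt_hi h0 h1 i₀
      have a5 := norm_sub_le_norm_sub_add_norm_sub 1 (pt α i₀) z
      rw [norm_sub_rev (pt α i₀) z] at a5
      have a6 := sj_pos i₀.1
      simp only [sc] at a3 hi₀'
      rw [div_le_div_iff₀ a6 hτ]
      have : ‖1 - z‖ ≤ 5 * sj i₀.1 := by linarith
      have h7 : 0 < κ * (2 + 7 * (1 / α)) := by positivity
      nlinarith
    have hfar : ∑ i ∈ F.filter (fun i => ¬ ‖z - pt α i‖ < sc α i / 4), nc α κ (pt α) (sc α) z i ≤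
        κ * (17 * M) / ‖1 - z‖ := by
      have : ∀ i ∈ F.filter (fun i => ¬ ‖z - pt α i‖ < sc α i / 4),
          nc α κ (pt α) (sc α) z i ≤ κ * 17 / ‖1 - z‖ * cc α 1 (sc α) i := by
        intro i hi
        have b1 := not_lt.1 (Finset.mem_filter.1 hi).2
        have b2 := pt_hi h0 h1 i
        have b3 := norm_sub_le_norm_sub_add_norm_sub 1 (pt α i) z
        rw [norm_sub_rev (pt α i) z] at b3
        have b4 : ‖1 - z‖ / 17 ≤ ‖z - pt α i‖ := by linarith
        have b5 := hc1 i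
        have e : cc α κ (sc α) i = κ * cc α 1 (sc α) i := by unfold cc; ring
        unfold nc; split_ifs
        · rw [e]
          calc κ * cc α 1 (sc α) i / ‖z - pt α i‖ ≤ κ * cc α 1 (sc α) i / (‖1 - z‖ / 17) := by
                gcongr
            _ = _ := by field_simp
        · positivity
      refine (Finset.sum_le_sum this).trans ?_
      rw [← Finset.mul_sum]
      calc _ ≤ κ * 17 / ‖1 - z‖ * M := by
            gcongr
            rw [hMdef]; exact hM.sum_le_tsum _ fun i _ => hc1 i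
        _ = _ := by ring
    refine (add_le_add hnear hfar).trans_eq ?_
    rw [hκ]; field_simp; ring
  · rw [tendsto_iff_norm_sub_tendsto_zero]
    have t1 : Tendsto (fun i : Idx α => i.1) cofinite atTop := by
      rw [← Nat.cofinite_eq_atTop]
      refine Tendsto.cofinite_of_finite_preimage_singleton fun j => ?_
      have : (fun i : Idx α => i.1) ⁻¹' {j} ⊆ range (Sigma.mk j) := by
        rintro ⟨j', k⟩ hj
        simp only [mem_preimage, mem_singleton_iff] at hj
        subst hj; exact ⟨k, rfl⟩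
      exact ((finite_range _).subset this).to_subtype
    have t2 : Tendsto (fun j => 4 * sj j) atTop (𝓝 0) := by
      have := ((tendsto_pow_atTop_nhds_zero_of_lt_one (r := (1 / 8 : ℝ)) (by norm_num)
        (by norm_num)).comp (tendsto_add_atTop_nat 1)).const_mul 4
      simpa [sj] using this
    refine squeeze_zero (fun _ => norm_nonneg _) (fun i => ?_) (t2.comp t1)
    rw [norm_sub_rev]; exact pt_hi h0 h1 i

theorem eventually_del_le : ∀ᶠ j in atTop, del α j ≤ 2 * sj j := by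
  have hb := one_lt_beta h0 h1
  have t := (tendsto_rpow_mul_exp_neg_mul_atTop_nhds_zero (1 / α) ((1 / α - 1) * log 8)
    (mul_pos (by linarith) (log_pos (by norm_num)))).comp
    (tendsto_atTop_add_const_right atTop 1 tendsto_natCast_atTop_atTop)
  filter_upwards [t.eventually (eventually_le_nhds (show (0 : ℝ) < 1 / 4 by norm_num))] with j hj
  simp only [Function.comp] at hj
  have a2 := sj_pos j
  have e : sj j ^ (1 / α) = sj j * exp (-((1 / α - 1) * log 8) * ((j : ℝ) + 1)) := by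
    have : sj j ^ (1 / α) = sj j * sj j ^ (1 / α - 1) := by
      rw [rpow_sub_one a2.ne']; field_simp
    rw [this, rpow_def_of_pos a2, sj, log_pow, one_div (8 : ℝ), log_inv]
    congr 2; push_cast; ring
  unfold del lam
  rw [e]
  nlinarith

theorem not_zeroSet_pt : ¬ IsGevreyZeroSet α (insert 1 (range (pt α))) := by
  refine not_zeroSet h0 (fun j => 2 * sj j) (fun j => ang α j (num α j)) (del α)
    (fun j => by linarith [sj_pos j]) (fun j => ang_ge h0 h1 j _)
    (fun j => by linarith [ang_le h0 h1 j _ le_rfl, sj_le j, pi_gt_three])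
    (fun i j hij => by linarith [ang_le h0 h1 j _ le_rfl, sj_lt hij, sj_pos j])
    (del_pos h0 h1) ?_ ?_
  · intro j θ hθ
    have hd := del_pos h0 h1 j
    have hx : 0 ≤ (θ - 2 * sj j) / del α j := div_nonneg (by linarith [hθ.1]) hd.le
    have hk : ⌊(θ - 2 * sj j) / del α j⌋₊ < num α j := by
      rw [Nat.floor_lt hx, div_lt_iff₀ hd]
      have := hθ.2; unfold ang at this; linarith
    refine ⟨pt α ⟨j, ⟨_, hk⟩⟩, mem_insert_of_mem _ ⟨_, rfl⟩, (chord_le _ _).trans ?_⟩
    have b1 := Nat.floor_le hx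
    have b2 := Nat.lt_floor_add_one ((θ - 2 * sj j) / del α j)
    rw [le_div_iff₀ hd] at b1
    rw [div_lt_iff₀ hd] at b2
    simp only [ang]
    rw [abs_le]; constructor <;> linarith
  · intro hs
    apply not_summable_natCast_inv
    rw [← summable_nat_add_iff 1]
    refine Summable.of_norm_bounded_eventually_nat (hs.mul_left 8) ?_
    filter_upwards [eventually_del_le h0 h1] with j hj
    have hd := del_pos h0 h1 j
    have a2 := sj_pos j
    have hj1 : (0 : ℝ) < (j : ℝ) + 1 := by positivity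
    have b1 : sj j ≤ ang α j (num α j) - 2 * sj j := by
      have c1 : (1 : ℝ) ≤ num α j := by
        have : 1 ≤ num α j := Nat.le_floor (by rw [Nat.cast_one, le_div_iff₀ hd]; linarith)
        exact_mod_cast this
      have c2 := Nat.lt_floor_add_one (2 * sj j / del α j)
      rw [div_lt_iff₀ hd] at c2
      change 2 * sj j < ((num α j : ℝ) + 1) * del α j at c2
      unfold ang; nlinarith
    have b2 : del α j ^ α ≤ 8 * (sj j * ((j : ℝ) + 1)) := by
      unfold del lam
      rw [mul_rpow (by positivity) (by positivity), mul_rpow (by positivity) (by positivity),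
        ← rpow_mul a2.le, ← rpow_mul hj1.le, one_div_mul_cancel h0.ne', rpow_one, rpow_one]
      have : (8 : ℝ) ^ α ≤ 8 ^ (1 : ℝ) := by gcongr; norm_num
      rw [rpow_one] at this
      nlinarith [mul_pos a2 hj1]
    have b3 : 0 < del α j ^ α := by positivity
    rw [Real.norm_eq_abs, abs_of_nonneg (by positivity), rpow_neg hd.le]
    push_cast
    calc ((j : ℝ) + 1)⁻¹ = 8 * (sj j * (8 * (sj j * ((j : ℝ) + 1)))⁻¹) := by field_simp
      _ ≤ _ := by gcongr; linarith

end

theorem isPeakSet_one : IsPeakSet 1 {1} := by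
  refine ⟨isClosed_singleton, by simp, fun z => (1 + z) / 2, ⟨fun z _ => by fun_prop,
    by fun_prop, 1, fun z _ w _ => ?_⟩, by simp, fun z hz hz1 => ?_⟩
  · rw [show (1 + z) / 2 - (1 + w) / 2 = (z - w) / 2 by ring, norm_div, rpow_one]
    simp only [Complex.norm_ofNat]
    linarith [norm_nonneg (z - w)]
  · rw [mem_sphere_zero_iff_norm] at hz
    have h1 : z.re < 1 := by
      refine lt_of_le_of_ne ((Complex.re_le_norm z).trans hz.le) fun h => hz1 ?_
      have h2 := Complex.sq_norm z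
      rw [hz, Complex.normSq_apply, h] at h2
      exact Complex.ext h (by simpa using (by nlinarith : z.im * z.im = 0))
    rw [norm_div, div_lt_one (by simp)]
    apply lt_of_pow_lt_pow_left₀ 2 (norm_nonneg _)
    have h2 := Complex.sq_norm z
    rw [hz, Complex.normSq_apply] at h2
    rw [Complex.sq_norm, Complex.normSq_apply]
    simp only [Complex.add_re, Complex.one_re, Complex.add_im, Complex.one_im, zero_add,
      Complex.norm_ofNat]
    nlinarith

theorem not_zeroSet_one : ¬ IsGevreyZeroSet 1 {1} := by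
  refine not_zeroSet one_pos sj (fun j => 2 * sj j) (fun j => 2 * sj j)
    (fun j => (sj_pos j).le) (fun j => by linarith [sj_pos j])
    (fun j => by linarith [sj_le j, pi_gt_three])
    (fun i j hij => by linarith [sj_lt hij, sj_pos j])
    (fun j => by linarith [sj_pos j]) ?_ ?_
  · intro j θ hθ
    refine ⟨1, rfl, ?_⟩
    have := chord_le θ 0
    rw [sub_zero, abs_of_nonneg ((sj_pos j).le.trans hθ.1)] at this
    simp only [circleMap_zero, Complex.ofReal_one, Complex.ofReal_zero, zero_mul, Complex.exp_zero,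
      mul_one] at this ⊢
    linarith [hθ.2]
  · have : (fun j => (2 * sj j - sj j) * (2 * sj j) ^ (-(1 : ℝ))) = fun _ => (1 / 2 : ℝ) := by
      ext j
      have := sj_pos j
      rw [rpow_neg_one]; field_simp; ring
    rw [this]
    intro h
    have := tendsto_nhds_unique h.tendsto_atTop_zero tendsto_const_nhds
    norm_num at this

theorem main {α : ℝ} (h0 : 0 < α) (h1 : α ≤ 1) :
    ∃ E : Set ℂ, IsPeakSet α E ∧ ¬ IsGevreyZeroSet α E := by
  rcases h1.lt_or_eq with h | rfl
  · obtain ⟨κ, H⟩ := exists_good h0 h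
    exact ⟨_, H.isPeakSet, not_zeroSet_pt h0 h⟩
  · exact ⟨_, isPeakSet_one, not_zeroSet_one⟩

end Pool.Agent.MP_129fce_an
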