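import Mathlib

namespace Pool.Agent.MP_129fce_an

open Metric Filter Topology

/-- The class `A_α`. -/
def InLipschitzClass (α : ℝ) (f : ℂ → ℂ) : Prop :=
  AnalyticOnNhd ℂ f (ball 0 1) ∧ ContinuousOn f (closedBall 0 1) ∧
    ∃ C : ℝ, ∀ ζ₁ ∈ sphere (0 : ℂ) 1, ∀ ζ₂ ∈ sphere (0 : ℂ) 1,
      ‖f ζ₁ - f ζ₂‖ ≤ C * ‖ζ₁ - ζ₂‖ ^ α

/-- `E` is a peak set for `A_α`. -/
def IsPeakSet (α : ℝ) (E : Set ℂ) : Prop :=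
  IsClosed E ∧ E ⊆ sphere 0 1 ∧
    ∃ f : ℂ → ℂ, InLipschitzClass α f ∧ (∀ ζ ∈ E, f ζ = 1) ∧
      ∀ ζ ∈ sphere (0 : ℂ) 1, ζ ∉ E → ‖f ζ‖ < 1

/-- The Gevrey class `G_α`. -/
def InGevreyClass (α : ℝ) (f : ℂ → ℂ) : Prop :=
  AnalyticOnNhd ℂ f (ball 0 1) ∧
    ∃ C : ℝ, ∀ n : ℕ, ∀ z ∈ ball (0 : ℂ) 1,
      ‖iteratedDeriv n f z‖ ≤ C ^ (n + 1) * (n.factorial : ℝ) ^ (1 + 1 / α)

/-- `E` is a zero set for `G_α`: the boundary values of all derivatives vanish on `E`. -/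
def IsGevreyZeroSet (α : ℝ) (E : Set ℂ) : Prop :=
  E ⊆ sphere 0 1 ∧
    ∃ f : ℂ → ℂ, InGevreyClass α f ∧ (∃ z ∈ ball (0 : ℂ) 1, f z ≠ 0) ∧
      ∀ n : ℕ, ∀ ζ ∈ E, Tendsto (iteratedDeriv n f) (𝓝[ball 0 1] ζ) (𝓝 0)

end Pool.Agent.MP_129fce_an
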