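import Pool.Agent.MP_129fce_an.Defs

/-! A sufficient condition for a sequence converging to `1`, together with `1`, to be a peak set. -/

namespace Pool.Agent.MP_129fce_an

open Metric Filter Topology Set Real ComplexConjugate

theorem u_norm {z ζ : ℂ} (hζ : ‖ζ‖ = 1) : ‖1 - z * conj ζ‖ = ‖z - ζ‖ := by
  have h1 : ζ * conj ζ = 1 := by
    rw [Complex.mul_conj, Complex.normSq_eq_norm_sq, hζ]; simp
  have : 1 - z * conj ζ = -((z - ζ) * conj ζ) := by linear_combination -h1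
  rw [this, norm_neg, norm_mul, Complex.norm_conj, hζ, mul_one]

theorem u_re {z ζ : ℂ} (hζ : ‖ζ‖ = 1) (hz : ‖z‖ ≤ 1) : 0 ≤ (1 - z * conj ζ).re := by
  have := Complex.re_le_norm (z * conj ζ)
  rw [norm_mul, Complex.norm_conj, hζ, mul_one] at this
  simp only [Complex.sub_re, Complex.one_re]
  linarith

theorem norm_le_norm_add_real {u : ℂ} (hu : 0 ≤ u.re) {ρ : ℝ} (hρ : 0 ≤ ρ) : ‖u‖ ≤ ‖u + ρ‖ := by
  apply le_of_sq_le_sq _ (norm_nonneg _) |>.trans le_rfl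
  rw [Complex.sq_norm, Complex.sq_norm, Complex.normSq_apply, Complex.normSq_apply]
  simp only [Complex.add_re, Complex.ofReal_re, Complex.add_im, Complex.ofReal_im, add_zero]
  nlinarith

theorem norm_lt_norm_one_add {u : ℂ} (hu : 0 ≤ u.re) : ‖u‖ < ‖1 + u‖ := by
  apply lt_of_pow_lt_pow_left₀ 2 (norm_nonneg _)
  rw [Complex.sq_norm, Complex.sq_norm, Complex.normSq_apply, Complex.normSq_apply]
  simp only [Complex.add_re, Complex.one_re, Complex.add_im, Complex.one_im, zero_add]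
  nlinarith

theorem real_le_norm_add_real {u : ℂ} (hu : 0 ≤ u.re) (ρ : ℝ) : ρ ≤ ‖u + ρ‖ := by
  have := Complex.re_le_norm (u + ρ)
  simp only [Complex.add_re, Complex.ofReal_re] at this
  linarith

theorem re_inv_nonneg {u : ℂ} (hu : 0 ≤ u.re) : 0 ≤ (u⁻¹).re := by
  rw [Complex.inv_re]; exact div_nonneg hu (Complex.normSq_nonneg _)

theorem re_inv_add_ge {u : ℂ} (hu : 0 ≤ u.re) {ρ : ℝ} (hρ : 0 < ρ) (h : ‖u‖ ≤ ρ) :
    1 / (4 * ρ) ≤ ((u + ρ)⁻¹).re := by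
  rw [Complex.inv_re, Complex.normSq_eq_norm_sq]
  have h1 : ‖u + ρ‖ ≤ 2 * ρ := by
    have := norm_add_le u (ρ : ℂ)
    rw [Complex.norm_real, Real.norm_eq_abs, abs_of_pos hρ] at this
    linarith
  have h2 := real_le_norm_add_real hu ρ
  have h3 : 0 < ‖u + ρ‖ := hρ.trans_le h2
  rw [div_le_div_iff₀ (by positivity) (by positivity)]
  simp only [Complex.add_re, Complex.ofReal_re]
  nlinarith

section
variable {ι : Type} (α κ : ℝ) (ζ : ι → ℂ) (s : ι → ℝ)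

noncomputable def rho (i : ι) : ℝ := s i ^ (1 / α)
noncomputable def cc (i : ι) : ℝ := κ * rho α s i / s i
noncomputable def TT (i : ι) (z : ℂ) : ℂ :=
  cc α κ s i * ((1 - z * conj (ζ i))⁻¹ + (1 - z * conj (ζ i) + rho α s i)⁻¹)
noncomputable def gg (z : ℂ) : ℂ := (1 - z)⁻¹ + ∑' i, TT α κ ζ s i z
open Classical in
noncomputable def hh (z : ℂ) : ℂ := if z ∈ insert 1 (range ζ) then 0 else (1 + gg α κ ζ s z)⁻¹
noncomputable def nc (z : ℂ) (i : ι) : ℝ :=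
  if rho α s i ≤ ‖z - ζ i‖ then cc α κ s i / ‖z - ζ i‖ else 0

structure Good : Prop where
  α0 : 0 < α
  α1 : α ≤ 1
  κ0 : 0 < κ
  κ1 : κ ≤ 1
  norm_ζ : ∀ i, ‖ζ i‖ = 1
  s0 : ∀ i, 0 < s i
  lo : ∀ i, s i ≤ ‖1 - ζ i‖
  hi : ∀ i, ‖1 - ζ i‖ ≤ 4 * s i
  hρ : ∀ i, rho α s i ≤ s i / 2
  hA : ∀ z : ℂ, z ≠ 1 → ∀ F : Finset ι, ∑ i ∈ F, nc α κ ζ s z i ≤ 1 / (4 * ‖1 - z‖)
  hU : ∀ (z : ℂ) i k, ‖z - ζ i‖ < rho α s i → ‖z - ζ k‖ < rho α s k → i = k
  hsum : Summable (cc α κ s)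
  hlim : Tendsto ζ cofinite (𝓝 1)

variable {α κ ζ s}

namespace Good
variable (H : Good α κ ζ s)
include H

theorem ρ0 (i : ι) : 0 < rho α s i := rpow_pos_of_pos (H.s0 i) _
theorem c0 (i : ι) : 0 < cc α κ s i := div_pos (mul_pos H.κ0 (H.ρ0 i)) (H.s0 i)
theorem ρ_pow (i : ι) : rho α s i ^ α = s i := by
  rw [rho, ← rpow_mul (H.s0 i).le, one_div_mul_cancel H.α0.ne', rpow_one]
theorem nc0 (z : ℂ) (i : ι) : 0 ≤ nc α κ ζ s z i := by
  unfold nc; split_ifs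
  · exact div_nonneg (H.c0 i).le (norm_nonneg _)
  · exact le_rfl

theorem le_two_rpow {x : ℝ} (hx : 0 ≤ x) (hx2 : x ≤ 2) : x ≤ 2 * x ^ α := by
  rcases hx.eq_or_lt with rfl | hx
  · rw [zero_rpow H.α0.ne']; simp
  have h1 : x = x ^ (1 - α) * x ^ α := by rw [← rpow_add hx]; simp
  have h2 : x ^ (1 - α) ≤ 2 := by
    calc x ^ (1 - α) ≤ 2 ^ (1 - α) := by gcongr; linarith [H.α1]
      _ ≤ 2 ^ (1 : ℝ) := by gcongr; norm_num; linarith [H.α0]
      _ = 2 := rpow_one 2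
  calc x = x ^ (1 - α) * x ^ α := h1
    _ ≤ 2 * x ^ α := by gcongr

theorem norm_TT_le {z : ℂ} (hz : ‖z‖ ≤ 1) (i : ι) (hzi : z ≠ ζ i) :
    ‖TT α κ ζ s i z‖ ≤ 2 * (cc α κ s i / ‖z - ζ i‖) := by
  have hδ : 0 < ‖z - ζ i‖ := norm_pos_iff.2 (sub_ne_zero.2 hzi)
  have h1 := norm_le_norm_add_real (u_re (H.norm_ζ i) hz) (H.ρ0 i).le
  rw [u_norm (H.norm_ζ i)] at h1
  rw [TT, norm_mul, Complex.norm_real, Real.norm_eq_abs, abs_of_pos (H.c0 i)]
  have h2 : ‖(1 - z * conj (ζ i))⁻¹ + (1 - z * conj (ζ i) + rho α s i)⁻¹‖ ≤ 2 / ‖z - ζ i‖ := by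
    refine (norm_add_le _ _).trans ?_
    rw [norm_inv, norm_inv, u_norm (H.norm_ζ i)]
    have := inv_anti₀ hδ h1
    rw [div_eq_mul_inv]; linarith
  calc _ ≤ cc α κ s i * (2 / ‖z - ζ i‖) := by gcongr; exact (H.c0 i).le
    _ = _ := by ring

theorem re_TT_nonneg {z : ℂ} (hz : ‖z‖ ≤ 1) (i : ι) : 0 ≤ (TT α κ ζ s i z).re := by
  rw [TT, Complex.re_ofReal_mul, Complex.add_re]
  have h1 := u_re (H.norm_ζ i) hz
  refine mul_nonneg (H.c0 i).le (add_nonneg (re_inv_nonneg h1) (re_inv_nonneg ?_))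
  simp only [Complex.add_re, Complex.ofReal_re]
  linarith [H.ρ0 i]

theorem summable_nc {z : ℂ} (hz1 : z ≠ 1) : Summable (nc α κ ζ s z) :=
  summable_of_sum_le (H.nc0 z) (H.hA z hz1)

theorem tsum_nc_le {z : ℂ} (hz1 : z ≠ 1) : ∑' i, nc α κ ζ s z i ≤ 1 / (4 * ‖1 - z‖) :=
  Real.tsum_le_of_sum_le (H.nc0 z) (H.hA z hz1)

theorem summable_TT {z : ℂ} (hz : ‖z‖ ≤ 1) (hzE : z ∉ insert 1 (range ζ)) :
    Summable fun i => TT α κ ζ s i z := by
  have hz1 : z ≠ 1 := fun h => hzE (h ▸ mem_insert _ _)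
  have hzi : ∀ i, z ≠ ζ i := fun i h => hzE (mem_insert_of_mem _ ⟨i, h.symm⟩)
  refine Summable.of_norm_bounded_eventually ((H.summable_nc hz1).mul_left 2) ?_
  have hfin : {i | ‖z - ζ i‖ < rho α s i}.Finite :=
    Set.Subsingleton.finite fun i hi k hk => H.hU z i k hi hk
  filter_upwards [hfin.compl_mem_cofinite] with i hi
  simp only [mem_compl_iff, mem_ofPred_eq, not_lt] at hi
  rw [nc, if_pos hi]
  exact H.norm_TT_le hz i (hzi i)

theorem re_gg_nonneg {z : ℂ} (hz : ‖z‖ ≤ 1) (hzE : z ∉ insert 1 (range ζ)) :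
    0 ≤ (gg α κ ζ s z).re := by
  rw [gg, Complex.add_re, Complex.re_tsum (H.summable_TT hz hzE)]
  refine add_nonneg (re_inv_nonneg ?_) (tsum_nonneg fun i => H.re_TT_nonneg hz i)
  simpa using u_re (ζ := 1) (by simp) hz

/-- The two basic lower bounds for `gg`. -/
theorem gg_lower {z : ℂ} (hz : ‖z‖ ≤ 1) (hzE : z ∉ insert 1 (range ζ)) :
    1 / ‖1 - z‖ ≤ 17 / κ * ‖gg α κ ζ s z‖ ∧
    ∀ i, ‖z - ζ i‖ < rho α s i → cc α κ s i / ‖z - ζ i‖ ≤ 17 / κ * ‖gg α κ ζ s z‖ := by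
  classical
  have hz1 : z ≠ 1 := fun h => hzE (h ▸ mem_insert _ _)
  have hzi : ∀ i, z ≠ ζ i := fun i h => hzE (mem_insert_of_mem _ ⟨i, h.symm⟩)
  have hτ : 0 < ‖1 - z‖ := norm_pos_iff.2 (sub_ne_zero.2 hz1.symm)
  have hκ0 := H.κ0
  have hκ1 := H.κ1
  have hsT := H.summable_TT hz hzE
  have hrest : ∀ f : ι → ℂ, (∀ i, ‖f i‖ ≤ 2 * nc α κ ζ s z i) → ‖∑' i, f i‖ ≤ 1 / (2 * ‖1 - z‖) := by
    intro f hf
    have := tsum_of_norm_bounded ((H.summable_nc hz1).mul_left 2).hasSum hf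
    rw [tsum_mul_left] at this
    have h2 := H.tsum_nc_le hz1
    have e : 1 / (2 * ‖1 - z‖) = 2 * (1 / (4 * ‖1 - z‖)) := by field_simp; norm_num
    rw [e]; linarith
  have hg0 := norm_nonneg (gg α κ ζ s z)
  by_cases hcore : ∃ i, ‖z - ζ i‖ < rho α s i
  · obtain ⟨i, hi⟩ := hcore
    have hs := H.s0 i
    have hρ := H.ρ0 i
    have hc := H.c0 i
    have hδ : 0 < ‖z - ζ i‖ := norm_pos_iff.2 (sub_ne_zero.2 (hzi i))
    have hτlo : s i / 2 ≤ ‖1 - z‖ := by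
      have := norm_sub_le_norm_sub_add_norm_sub 1 z (ζ i)
      linarith [H.lo i, H.hρ i]
    have hsplit := hsT.tsum_eq_add_tsum_ite i
    set R := ∑' k, ite (k = i) 0 (TT α κ ζ s k z) with hR
    have hRle : ‖R‖ ≤ 1 / (2 * ‖1 - z‖) := by
      apply hrest
      intro k
      split_ifs with hk
      · simpa using H.nc0 z k
      · rw [nc, if_pos (not_lt.1 fun h => hk (H.hU z k i h hi))]
        exact H.norm_TT_le hz k (hzi k)
    have hsR : Summable fun k => ite (k = i) 0 (TT α κ ζ s k z) := by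
      refine Summable.of_norm_bounded hsT.norm fun k => ?_
      split_ifs <;> simp
    have hRre : 0 ≤ R.re := by
      rw [hR, Complex.re_tsum hsR]
      refine tsum_nonneg fun k => ?_
      split_ifs
      · simp
      · exact H.re_TT_nonneg hz k
    have hu := u_re (H.norm_ζ i) hz
    have hun := u_norm (z := z) (H.norm_ζ i)
    have hcρ : cc α κ s i / rho α s i = κ / s i := by rw [cc]; field_simp
    -- real part
    have h1 : κ / (4 * s i) ≤ ‖gg α κ ζ s z‖ := by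
      refine le_trans ?_ (Complex.re_le_norm _)
      rw [gg, hsplit, Complex.add_re, Complex.add_re, TT, Complex.re_ofReal_mul, Complex.add_re]
      have a1 : 0 ≤ ((1 - z)⁻¹).re := re_inv_nonneg (by simpa using u_re (ζ := 1) (by simp) hz)
      have a2 := re_inv_nonneg hu
      have a3 := re_inv_add_ge hu hρ (by rw [hun]; exact hi.le)
      have a4 : κ / (4 * s i) = cc α κ s i * (1 / (4 * rho α s i)) := by rw [cc]; field_simp
      rw [a4]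
      nlinarith [mul_le_mul_of_nonneg_left a3 hc.le, mul_nonneg hc.le a2]
    have h1' : 1 / s i ≤ 4 / κ * ‖gg α κ ζ s z‖ := by
      rw [div_le_iff₀ (by positivity)] at h1
      rw [div_le_iff₀ hs, div_mul_eq_mul_div, div_mul_eq_mul_div, le_div_iff₀ hκ0]
      linarith
    have h2 : 1 / ‖1 - z‖ ≤ 2 * (1 / s i) := by
      rw [div_le_iff₀ hτ, mul_one_div, div_mul_eq_mul_div, le_div_iff₀ hs]; linarith
    have h3 : cc α κ s i / ‖z - ζ i‖ ≤ ‖gg α κ ζ s z‖ + 4 * (1 / s i) := by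
      have e : (cc α κ s i : ℂ) * (1 - z * conj (ζ i))⁻¹ = gg α κ ζ s z - (1 - z)⁻¹ - R
          - cc α κ s i * (1 - z * conj (ζ i) + rho α s i)⁻¹ := by
        rw [gg, hsplit, TT]; ring
      have e2 : cc α κ s i / ‖z - ζ i‖ = ‖(cc α κ s i : ℂ) * (1 - z * conj (ζ i))⁻¹‖ := by
        rw [norm_mul, norm_inv, hun, Complex.norm_real, Real.norm_eq_abs, abs_of_pos hc,
          div_eq_mul_inv]
      have b1 : ‖(cc α κ s i : ℂ) * (1 - z * conj (ζ i) + rho α s i)⁻¹‖ ≤ 1 / s i := by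
        rw [norm_mul, norm_inv, Complex.norm_real, Real.norm_eq_abs, abs_of_pos hc]
        calc _ ≤ cc α κ s i * (rho α s i)⁻¹ := by
              gcongr; exact real_le_norm_add_real hu _
          _ = κ / s i := by rw [← hcρ, div_eq_mul_inv]
          _ ≤ 1 / s i := by gcongr
      have b2 : ‖(1 - z)⁻¹‖ = 1 / ‖1 - z‖ := by rw [norm_inv, one_div]
      have b3 : 1 / (2 * ‖1 - z‖) = 1 / ‖1 - z‖ / 2 := by field_simp
      rw [e2, e]
      have := norm_sub_le (gg α κ ζ s z - (1 - z)⁻¹ - R)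
        (cc α κ s i * (1 - z * conj (ζ i) + rho α s i)⁻¹)
      have := norm_sub_le (gg α κ ζ s z - (1 - z)⁻¹) R
      have := norm_sub_le (gg α κ ζ s z) (1 - z)⁻¹
      linarith
    have h4 : ‖gg α κ ζ s z‖ ≤ 1 / κ * ‖gg α κ ζ s z‖ := by
      have : 1 ≤ 1 / κ := by rw [le_div_iff₀ hκ0]; linarith
      nlinarith
    have h5 : 0 ≤ 1 / κ * ‖gg α κ ζ s z‖ := by positivity
    have e4 : 4 / κ * ‖gg α κ ζ s z‖ = 4 * (1 / κ * ‖gg α κ ζ s z‖) := by ring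
    have e17 : 17 / κ * ‖gg α κ ζ s z‖ = 17 * (1 / κ * ‖gg α κ ζ s z‖) := by ring
    refine ⟨by linarith, fun k hk => ?_⟩
    obtain rfl := H.hU z k i hk hi
    linarith
  · refine ⟨?_, fun i hi => absurd ⟨i, hi⟩ hcore⟩
    push Not at hcore
    have hRle : ‖∑' k, TT α κ ζ s k z‖ ≤ 1 / (2 * ‖1 - z‖) := by
      apply hrest
      intro k
      rw [nc, if_pos (hcore k)]
      exact H.norm_TT_le hz k (hzi k)
    have e : (1 - z)⁻¹ = gg α κ ζ s z - ∑' k, TT α κ ζ s k z := by rw [gg]; ring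
    have h1 := norm_sub_le (gg α κ ζ s z) (∑' k, TT α κ ζ s k z)
    rw [← e, norm_inv, ← one_div] at h1
    have b3 : 1 / (2 * ‖1 - z‖) = 1 / ‖1 - z‖ / 2 := by field_simp
    have : 2 ≤ 17 / κ := by rw [le_div_iff₀ hκ0]; linarith
    nlinarith

theorem hh_upper {z : ℂ} (hz : ‖z‖ ≤ 1) (hzE : z ∉ insert 1 (range ζ)) :
    ‖hh α κ ζ s z‖ ≤ 17 / κ * ‖1 - z‖ ∧
    ∀ i, ‖z - ζ i‖ < rho α s i → cc α κ s i * ‖hh α κ ζ s z‖ ≤ 17 / κ * ‖z - ζ i‖ := by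
  have hz1 : z ≠ 1 := fun h => hzE (h ▸ mem_insert _ _)
  have hzi : ∀ i, z ≠ ζ i := fun i h => hzE (mem_insert_of_mem _ ⟨i, h.symm⟩)
  have hτ : 0 < ‖1 - z‖ := norm_pos_iff.2 (sub_ne_zero.2 hz1.symm)
  have hκ0 := H.κ0
  obtain ⟨h1, h2⟩ := H.gg_lower hz hzE
  have h3 := norm_lt_norm_one_add (H.re_gg_nonneg hz hzE)
  have h4 : 0 < ‖1 + gg α κ ζ s z‖ := (norm_nonneg _).trans_lt h3
  have h5 : 17 / κ * ‖gg α κ ζ s z‖ ≤ 17 / κ * ‖1 + gg α κ ζ s z‖ := by gcongr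
  rw [hh, if_neg hzE, norm_inv]
  constructor
  · have := h1.trans h5
    rw [div_le_iff₀ hτ] at this
    rw [inv_le_iff_one_le_mul₀ h4]; linarith
  · intro i hi
    have hδ : 0 < ‖z - ζ i‖ := norm_pos_iff.2 (sub_ne_zero.2 (hzi i))
    have := (h2 i hi).trans h5
    rw [div_le_iff₀ hδ] at this
    rw [← div_eq_mul_inv, div_le_iff₀ h4]; linarith

theorem tau_le {z : ℂ} (hz : ‖z‖ ≤ 1) (i : ι) (hi : rho α s i ≤ ‖z - ζ i‖) :
    ‖1 - z‖ ≤ 6 * ‖z - ζ i‖ ^ α := by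
  have h1 : ‖z - ζ i‖ ≤ 2 := (norm_sub_le _ _).trans (by linarith [H.norm_ζ i])
  have h2 := H.le_two_rpow (norm_nonneg _) h1
  have h3 : s i ≤ ‖z - ζ i‖ ^ α := by
    rw [← H.ρ_pow i]; gcongr
    · exact (H.ρ0 i).le
    · exact H.α0.le
  have h4 := norm_sub_le_norm_sub_add_norm_sub 1 (ζ i) z
  rw [norm_sub_rev (ζ i) z] at h4
  linarith [H.hi i]

theorem inv_cc (i : ι) : (cc α κ s i)⁻¹ = 1 / κ * rho α s i ^ (α - 1) := by
  have := H.κ0; have := H.ρ0 i; have := H.s0 i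
  rw [rpow_sub_one (H.ρ0 i).ne', H.ρ_pow, cc]; field_simp

/-- Estimate (i). -/
theorem hh_holder {z : ℂ} (hz : ‖z‖ ≤ 1) {e : ℂ} (he : e ∈ insert 1 (range ζ)) :
    ‖hh α κ ζ s z‖ ≤ 102 / κ ^ 2 * ‖z - e‖ ^ α := by
  have hκ0 := H.κ0
  have hκ1 := H.κ1
  by_cases hzE : z ∈ insert 1 (range ζ)
  · rw [hh, if_pos hzE, norm_zero]; positivity
  have hzi : ∀ i, z ≠ ζ i := fun i h => hzE (mem_insert_of_mem _ ⟨i, h.symm⟩)
  obtain ⟨h1, h2⟩ := H.hh_upper hz hzE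
  have hk : 1 / κ ≤ 1 / κ ^ 2 := by
    apply one_div_le_one_div_of_le (by positivity); nlinarith
  have hk0 : 0 < 1 / κ := by positivity
  have hp : 0 ≤ ‖z - e‖ ^ α := by positivity
  have e1 : 102 / κ ^ 2 * ‖z - e‖ ^ α = 102 * (1 / κ ^ 2 * ‖z - e‖ ^ α) := by ring
  have hk2 : 1 / κ * ‖z - e‖ ^ α ≤ 1 / κ ^ 2 * ‖z - e‖ ^ α := by gcongr
  have hk3 : 0 ≤ 1 / κ * ‖z - e‖ ^ α := by positivity
  rcases he with rfl | ⟨i, rfl⟩
  · have h3 := H.le_two_rpow (norm_nonneg (z - 1)) ((norm_sub_le _ _).trans (by simp; linarith))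
    rw [norm_sub_rev] at h1
    have : 17 / κ * ‖z - 1‖ ≤ 17 / κ * (2 * ‖z - 1‖ ^ α) := by gcongr
    have e2 : 17 / κ * (2 * ‖z - 1‖ ^ α) = 34 * (1 / κ * ‖z - 1‖ ^ α) := by ring
    linarith
  · by_cases hi : ‖z - ζ i‖ < rho α s i
    · have hδ : 0 < ‖z - ζ i‖ := norm_pos_iff.2 (sub_ne_zero.2 (hzi i))
      have h3 := h2 i hi
      rw [← le_inv_mul_iff₀ (H.c0 i), H.inv_cc] at h3
      have h4 : rho α s i ^ (α - 1) ≤ ‖z - ζ i‖ ^ (α - 1) :=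
        rpow_le_rpow_of_nonpos hδ hi.le (by linarith [H.α1])
      have h5 : ‖z - ζ i‖ ^ (α - 1) * ‖z - ζ i‖ = ‖z - ζ i‖ ^ α := by
        rw [rpow_sub_one hδ.ne']; field_simp
      calc ‖hh α κ ζ s z‖ ≤ 1 / κ * rho α s i ^ (α - 1) * (17 / κ * ‖z - ζ i‖) := h3
        _ ≤ 1 / κ * ‖z - ζ i‖ ^ (α - 1) * (17 / κ * ‖z - ζ i‖) := by gcongr
        _ = 17 * (1 / κ ^ 2 * (‖z - ζ i‖ ^ (α - 1) * ‖z - ζ i‖)) := by ring
        _ ≤ _ := by rw [h5, e1]; linarith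
    · have h3 := H.tau_le hz i (not_lt.1 hi)
      have : 17 / κ * ‖1 - z‖ ≤ 17 / κ * (6 * ‖z - ζ i‖ ^ α) := by gcongr
      have e2 : 17 / κ * (6 * ‖z - ζ i‖ ^ α) = 102 * (1 / κ * ‖z - ζ i‖ ^ α) := by ring
      linarith

/-- Estimate (ii). -/
theorem sq_sum_le {z : ℂ} (hz : ‖z‖ ≤ 1) {η : ℝ} (hη : 0 < η)
    (hηE : ∀ e ∈ insert 1 (range ζ), η ≤ ‖z - e‖) (F : Finset ι) :
    ∑ i ∈ F, cc α κ s i * (‖hh α κ ζ s z‖ / ‖z - ζ i‖) ^ 2 ≤
      (17 / κ) ^ 2 * (2 + 1 / κ) * η ^ (α - 1) := by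
  classical
  have hκ0 := H.κ0
  have hzE : z ∉ insert 1 (range ζ) := fun h => by simpa using (hη.trans_le (hηE z h))
  have hz1 : z ≠ 1 := fun h => hzE (h ▸ mem_insert _ _)
  have hτ : 0 < ‖1 - z‖ := norm_pos_iff.2 (sub_ne_zero.2 hz1.symm)
  have hηi : ∀ i, η ≤ ‖z - ζ i‖ := fun i => hηE _ (mem_insert_of_mem _ ⟨i, rfl⟩)
  obtain ⟨h1, h2⟩ := H.hh_upper hz hzE
  have hα1 : α - 1 ≤ 0 := by linarith [H.α1]
  obtain ⟨A, hA⟩ : ∃ A, A = 17 / κ := ⟨_, rfl⟩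
  rw [← hA] at h1 h2 ⊢
  have hA0 : 0 < A := by rw [hA]; positivity
  have hpt : ∀ i, cc α κ s i * (‖hh α κ ζ s z‖ / ‖z - ζ i‖) ^ 2 ≤
      6 * A ^ 2 * ‖1 - z‖ * η ^ (α - 1) * nc α κ ζ s z i +
        if ‖z - ζ i‖ < rho α s i then A ^ 2 * (1 / κ) * η ^ (α - 1) else 0 := by
    intro i
    have hδ : 0 < ‖z - ζ i‖ := hη.trans_le (hηi i)
    have hc := H.c0 i
    by_cases hi : ‖z - ζ i‖ < rho α s i
    · rw [if_pos hi, nc, if_neg (not_le.2 hi), mul_zero, zero_add]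
      have h3 : ‖hh α κ ζ s z‖ / ‖z - ζ i‖ ≤ A / cc α κ s i := by
        rw [div_le_div_iff₀ hδ hc]; linarith [h2 i hi]
      have h4 : rho α s i ^ (α - 1) ≤ η ^ (α - 1) :=
        rpow_le_rpow_of_nonpos hη ((hηi i).trans hi.le) hα1
      calc _ ≤ cc α κ s i * (A / cc α κ s i) ^ 2 := by gcongr
        _ = A ^ 2 * (cc α κ s i)⁻¹ := by field_simp
        _ = A ^ 2 * (1 / κ) * rho α s i ^ (α - 1) := by rw [H.inv_cc]; ring
        _ ≤ _ := by gcongr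
    · rw [if_neg hi, nc, if_pos (not_lt.1 hi), add_zero]
      have h3 := H.tau_le hz i (not_lt.1 hi)
      have h4 : ‖z - ζ i‖ ^ (α - 1) ≤ η ^ (α - 1) := rpow_le_rpow_of_nonpos hη (hηi i) hα1
      have h5 : ‖1 - z‖ / ‖z - ζ i‖ ≤ 6 * η ^ (α - 1) := by
        rw [rpow_sub_one hδ.ne'] at h4
        calc ‖1 - z‖ / ‖z - ζ i‖ ≤ 6 * ‖z - ζ i‖ ^ α / ‖z - ζ i‖ := by gcongr
          _ = 6 * (‖z - ζ i‖ ^ α / ‖z - ζ i‖) := by ring
          _ ≤ _ := by gcongr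
      calc _ ≤ cc α κ s i * (A * ‖1 - z‖ / ‖z - ζ i‖) ^ 2 := by gcongr
        _ = A ^ 2 * ‖1 - z‖ * (‖1 - z‖ / ‖z - ζ i‖) * (cc α κ s i / ‖z - ζ i‖) := by ring
        _ ≤ A ^ 2 * ‖1 - z‖ * (6 * η ^ (α - 1)) * (cc α κ s i / ‖z - ζ i‖) := by gcongr
        _ = _ := by ring
  refine (Finset.sum_le_sum fun i _ => hpt i).trans ?_
  rw [Finset.sum_add_distrib, ← Finset.mul_sum, ← Finset.sum_filter, Finset.sum_const,
    nsmul_eq_mul]
  have hcard : ((F.filter fun i => ‖z - ζ i‖ < rho α s i).card : ℝ) ≤ 1 := by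
    exact_mod_cast Finset.card_le_one.2 fun i hi k hk =>
      H.hU z i k (Finset.mem_filter.1 hi).2 (Finset.mem_filter.1 hk).2
  have hp : 0 < η ^ (α - 1) := by positivity
  calc _ ≤ 6 * A ^ 2 * ‖1 - z‖ * η ^ (α - 1) * (1 / (4 * ‖1 - z‖)) +
        1 * (A ^ 2 * (1 / κ) * η ^ (α - 1)) := by
        gcongr
        exact H.hA z hz1 F
    _ = A ^ 2 * (3 / 2 + 1 / κ) * η ^ (α - 1) := by field_simp; ring
    _ ≤ _ := by gcongr; norm_num

theorem norm_TT_sub_le {z w : ℂ} (hz : ‖z‖ ≤ 1) (hw : ‖w‖ ≤ 1) (i : ι) (hzi : z ≠ ζ i)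
    (hwi : w ≠ ζ i) : ‖TT α κ ζ s i z - TT α κ ζ s i w‖ ≤
      2 * cc α κ s i * ‖z - w‖ / (‖z - ζ i‖ * ‖w - ζ i‖) := by
  have hδz : 0 < ‖z - ζ i‖ := norm_pos_iff.2 (sub_ne_zero.2 hzi)
  have hδw : 0 < ‖w - ζ i‖ := norm_pos_iff.2 (sub_ne_zero.2 hwi)
  have gen : ∀ ρ : ℝ, 0 ≤ ρ → ‖(1 - z * conj (ζ i) + ρ)⁻¹ - (1 - w * conj (ζ i) + ρ)⁻¹‖ ≤
      ‖z - w‖ / (‖z - ζ i‖ * ‖w - ζ i‖) := by
    intro ρ hρ
    have h1 := norm_le_norm_add_real (u_re (H.norm_ζ i) hz) hρ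
    have h2 := norm_le_norm_add_real (u_re (H.norm_ζ i) hw) hρ
    rw [u_norm (H.norm_ζ i)] at h1 h2
    rw [inv_sub_inv (norm_pos_iff.1 (hδz.trans_le h1)) (norm_pos_iff.1 (hδw.trans_le h2)),
      norm_div, norm_mul]
    have : 1 - w * conj (ζ i) + ρ - (1 - z * conj (ζ i) + ρ) = (z - w) * conj (ζ i) := by ring
    rw [this, norm_mul, Complex.norm_conj, H.norm_ζ, mul_one]
    gcongr
  have g0 := gen 0 le_rfl
  simp only [Complex.ofReal_zero, add_zero] at g0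
  have g1 := gen _ (H.ρ0 i).le
  have e : TT α κ ζ s i z - TT α κ ζ s i w = cc α κ s i *
      (((1 - z * conj (ζ i))⁻¹ - (1 - w * conj (ζ i))⁻¹) +
        ((1 - z * conj (ζ i) + rho α s i)⁻¹ - (1 - w * conj (ζ i) + rho α s i)⁻¹)) := by
    rw [TT, TT]; ring
  rw [e, norm_mul, Complex.norm_real, Real.norm_eq_abs, abs_of_pos (H.c0 i)]
  calc _ ≤ cc α κ s i * (‖z - w‖ / (‖z - ζ i‖ * ‖w - ζ i‖) + ‖z - w‖ / (‖z - ζ i‖ * ‖w - ζ i‖)) := by
        gcongr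
        · exact (H.c0 i).le
        · exact (norm_add_le _ _).trans (add_le_add g0 g1)
    _ = _ := by ring

theorem hh_sub_far {z w : ℂ} (hz : ‖z‖ ≤ 1) (hw : ‖w‖ ≤ 1) {η : ℝ} (hη : 0 < η)
    (hzη : ∀ e ∈ insert 1 (range ζ), η ≤ ‖z - e‖) (hwη : ∀ e ∈ insert 1 (range ζ), η ≤ ‖w - e‖) :
    ‖hh α κ ζ s z - hh α κ ζ s w‖ ≤ (17 / κ) ^ 2 * (6 + 2 / κ) * η ^ (α - 1) * ‖z - w‖ := by
  have hκ0 := H.κ0
  have hzE : z ∉ insert 1 (range ζ) := fun h => by simpa using (hη.trans_le (hzη z h))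
  have hwE : w ∉ insert 1 (range ζ) := fun h => by simpa using (hη.trans_le (hwη w h))
  have hz1 : z ≠ 1 := fun h => hzE (h ▸ mem_insert _ _)
  have hw1 : w ≠ 1 := fun h => hwE (h ▸ mem_insert _ _)
  have hzi : ∀ i, z ≠ ζ i := fun i h => hzE (mem_insert_of_mem _ ⟨i, h.symm⟩)
  have hwi : ∀ i, w ≠ ζ i := fun i h => hwE (mem_insert_of_mem _ ⟨i, h.symm⟩)
  have hτz : 0 < ‖1 - z‖ := norm_pos_iff.2 (sub_ne_zero.2 hz1.symm)
  have hτw : 0 < ‖1 - w‖ := norm_pos_iff.2 (sub_ne_zero.2 hw1.symm)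
  have hHz : 1 + gg α κ ζ s z ≠ 0 :=
    norm_pos_iff.1 ((norm_nonneg _).trans_lt (norm_lt_norm_one_add (H.re_gg_nonneg hz hzE)))
  have hHw : 1 + gg α κ ζ s w ≠ 0 :=
    norm_pos_iff.1 ((norm_nonneg _).trans_lt (norm_lt_norm_one_add (H.re_gg_nonneg hw hwE)))
  have e1 : hh α κ ζ s z - hh α κ ζ s w =
      -(hh α κ ζ s z * hh α κ ζ s w * (gg α κ ζ s z - gg α κ ζ s w)) := by
    rw [hh, hh, if_neg hzE, if_neg hwE]; field_simp; ring
  have e2 : hh α κ ζ s z * hh α κ ζ s w * (gg α κ ζ s z - gg α κ ζ s w) =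
      hh α κ ζ s z * hh α κ ζ s w * ((1 - z)⁻¹ - (1 - w)⁻¹) +
      ∑' i, hh α κ ζ s z * hh α κ ζ s w * (TT α κ ζ s i z - TT α κ ζ s i w) := by
    rw [tsum_mul_left, (H.summable_TT hz hzE).tsum_sub (H.summable_TT hw hwE), gg, gg]; ring
  obtain ⟨A, hA⟩ : ∃ A, A = 17 / κ := ⟨_, rfl⟩
  have hA0 : 0 < A := by rw [hA]; positivity
  have hz' := (H.hh_upper hz hzE).1
  have hw' := (H.hh_upper hw hwE).1
  have Sz := H.sq_sum_le hz hη hzη
  have Sw := H.sq_sum_le hw hη hwη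
  rw [← hA] at hz' hw' Sz Sw ⊢
  have hp : 1 ≤ 2 * η ^ (α - 1) := by
    have hη2 : η ≤ 2 := (hzη 1 (mem_insert _ _)).trans ((norm_sub_le _ _).trans (by simp; linarith))
    have := H.le_two_rpow hη.le hη2
    rw [rpow_sub_one hη.ne', ← mul_div_assoc, le_div_iff₀ hη]; linarith
  have t1 : ‖hh α κ ζ s z * hh α κ ζ s w * ((1 - z)⁻¹ - (1 - w)⁻¹)‖ ≤
      A ^ 2 * (2 * η ^ (α - 1)) * ‖z - w‖ := by
    rw [inv_sub_inv (norm_pos_iff.1 hτz) (norm_pos_iff.1 hτw), norm_mul, norm_mul, norm_div,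
      norm_mul, show 1 - w - (1 - z) = z - w by ring]
    calc _ ≤ A * ‖1 - z‖ * (A * ‖1 - w‖) * (‖z - w‖ / (‖1 - z‖ * ‖1 - w‖)) := by gcongr
      _ = A ^ 2 * 1 * ‖z - w‖ := by field_simp
      _ ≤ _ := by gcongr
  have nz : ∀ i, 0 ≤ cc α κ s i * (‖hh α κ ζ s z‖ / ‖z - ζ i‖) ^ 2 :=
    fun i => mul_nonneg (H.c0 i).le (sq_nonneg _)
  have nw : ∀ i, 0 ≤ cc α κ s i * (‖hh α κ ζ s w‖ / ‖w - ζ i‖) ^ 2 :=
    fun i => mul_nonneg (H.c0 i).le (sq_nonneg _)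
  have sz := summable_of_sum_le nz Sz
  have sw := summable_of_sum_le nw Sw
  have t2 := tsum_of_norm_bounded ((sz.add sw).mul_left ‖z - w‖).hasSum
    (f := fun i => hh α κ ζ s z * hh α κ ζ s w * (TT α κ ζ s i z - TT α κ ζ s i w)) (fun i => by
      have hδz : 0 < ‖z - ζ i‖ := norm_pos_iff.2 (sub_ne_zero.2 (hzi i))
      have hδw : 0 < ‖w - ζ i‖ := norm_pos_iff.2 (sub_ne_zero.2 (hwi i))
      have hc := H.c0 i
      rw [norm_mul, norm_mul]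
      calc _ ≤ ‖hh α κ ζ s z‖ * ‖hh α κ ζ s w‖ *
            (2 * cc α κ s i * ‖z - w‖ / (‖z - ζ i‖ * ‖w - ζ i‖)) := by
            gcongr; exact H.norm_TT_sub_le hz hw i (hzi i) (hwi i)
        _ = ‖z - w‖ * (cc α κ s i *
            (2 * (‖hh α κ ζ s z‖ / ‖z - ζ i‖) * (‖hh α κ ζ s w‖ / ‖w - ζ i‖))) := by
            field_simp
        _ ≤ ‖z - w‖ * (cc α κ s i *
            ((‖hh α κ ζ s z‖ / ‖z - ζ i‖) ^ 2 + (‖hh α κ ζ s w‖ / ‖w - ζ i‖) ^ 2)) := by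
            gcongr; exact two_mul_le_add_sq _ _
        _ = _ := by ring)
  rw [tsum_mul_left (a := ‖z - w‖), sz.tsum_add sw] at t2
  have bz := Real.tsum_le_of_sum_le nz Sz
  have bw := Real.tsum_le_of_sum_le nw Sw
  rw [e1, norm_neg, e2]
  refine (norm_add_le _ _).trans ?_
  calc _ ≤ A ^ 2 * (2 * η ^ (α - 1)) * ‖z - w‖ + ‖z - w‖ *
        (A ^ 2 * (2 + 1 / κ) * η ^ (α - 1) + A ^ 2 * (2 + 1 / κ) * η ^ (α - 1)) := by
        refine add_le_add t1 (t2.trans ?_)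
        gcongr
    _ = _ := by ring

theorem hh_lipschitz : ∃ C : ℝ, ∀ z w : ℂ, ‖z‖ ≤ 1 → ‖w‖ ≤ 1 →
    ‖hh α κ ζ s z - hh α κ ζ s w‖ ≤ C * ‖z - w‖ ^ α := by
  have hκ0 := H.κ0
  refine ⟨(17 / κ) ^ 2 * (6 + 2 / κ) + 102 / κ ^ 2 * 6, fun z w hz hw => ?_⟩
  rcases eq_or_ne z w with rfl | hzw
  · simp only [sub_self, norm_zero]; positivity
  have hη : 0 < ‖z - w‖ := norm_pos_iff.2 (sub_ne_zero.2 hzw)
  have hp : 0 < ‖z - w‖ ^ α := by positivity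
  by_cases hfar : ∀ e ∈ insert 1 (range ζ), 2 * ‖z - w‖ ≤ ‖z - e‖
  · have := H.hh_sub_far hz hw hη (fun e he => by linarith [hfar e he]) (fun e he => by
      linarith [hfar e he, norm_sub_le_norm_sub_add_norm_sub z w e])
    rw [mul_assoc, rpow_sub_one hη.ne', div_mul_cancel₀ _ hη.ne'] at this
    refine this.trans ?_
    gcongr
    exact le_add_of_nonneg_right (by positivity)
  · push Not at hfar
    obtain ⟨e, he, hze⟩ := hfar
    have h3 : ∀ x : ℝ, 0 ≤ x → x ≤ 3 * ‖z - w‖ → x ^ α ≤ 3 * ‖z - w‖ ^ α := by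
      intro x hx hx3
      calc x ^ α ≤ (3 * ‖z - w‖) ^ α := by gcongr; exact H.α0.le
        _ = 3 ^ α * ‖z - w‖ ^ α := mul_rpow (by norm_num) hη.le
        _ ≤ 3 ^ (1 : ℝ) * ‖z - w‖ ^ α := by gcongr; norm_num; exact H.α1
        _ = _ := by rw [rpow_one]
    have hwe : ‖w - e‖ ≤ 3 * ‖z - w‖ := by
      have := norm_sub_le_norm_sub_add_norm_sub w z e
      rw [norm_sub_rev w z] at this
      linarith
    have a1 := H.hh_holder hz he
    have a2 := H.hh_holder hw he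
    have a3 := h3 _ (norm_nonneg _) (by linarith : ‖z - e‖ ≤ 3 * ‖z - w‖)
    have a4 := h3 _ (norm_nonneg _) hwe
    calc _ ≤ ‖hh α κ ζ s z‖ + ‖hh α κ ζ s w‖ := norm_sub_le _ _
      _ ≤ 102 / κ ^ 2 * (3 * ‖z - w‖ ^ α) + 102 / κ ^ 2 * (3 * ‖z - w‖ ^ α) := by
        refine add_le_add (a1.trans ?_) (a2.trans ?_) <;> gcongr
      _ = 102 / κ ^ 2 * 6 * ‖z - w‖ ^ α := by ring
      _ ≤ _ := by
        gcongr
        exact le_add_of_nonneg_left (by positivity)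

theorem notMem_of_ball {z : ℂ} (hz : z ∈ ball (0 : ℂ) 1) : z ∉ insert 1 (range ζ) := by
  rw [mem_ball_zero_iff] at hz
  rintro (rfl | ⟨i, rfl⟩)
  · simp at hz
  · simp [H.norm_ζ] at hz

theorem differentiableOn_gg : DifferentiableOn ℂ (gg α κ ζ s) (ball 0 1) := by
  intro z hz
  have hz' := mem_ball_zero_iff.1 hz
  obtain ⟨r, hr1, hr2⟩ := exists_between hz'
  have hin : ∀ w ∈ ball (0 : ℂ) r, ∀ i, 1 - r ≤ ‖w - ζ i‖ := by
    intro w hw i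
    have := norm_sub_norm_le (ζ i) w
    rw [norm_sub_rev, H.norm_ζ] at this
    linarith [mem_ball_zero_iff.1 hw]
  have hsumd : DifferentiableOn ℂ (fun w => ∑' i, TT α κ ζ s i w) (ball 0 r) := by
    refine Complex.differentiableOn_tsum_of_summable_norm
      (u := fun i => 2 * (cc α κ s i / (1 - r))) ((H.hsum.div_const _).mul_left 2) ?_ isOpen_ball ?_
    · intro i w hw
      have hw1 : ‖w‖ ≤ 1 := by linarith [mem_ball_zero_iff.1 hw]
      have h1 : 0 < ‖1 - w * conj (ζ i)‖ := by rw [u_norm (H.norm_ζ i)]; linarith [hin w hw i]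
      have h2 := norm_le_norm_add_real (u_re (H.norm_ζ i) hw1) (H.ρ0 i).le
      refine DifferentiableAt.differentiableWithinAt ?_
      unfold TT
      refine (differentiableAt_const _).mul (DifferentiableAt.add ?_ ?_)
      · exact DifferentiableAt.inv (by fun_prop) (norm_pos_iff.1 h1)
      · exact DifferentiableAt.inv (by fun_prop) (norm_pos_iff.1 (h1.trans_le h2))
    · intro i w hw
      have hw1 : ‖w‖ ≤ 1 := by linarith [mem_ball_zero_iff.1 hw]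
      have h1 := hin w hw i
      refine (H.norm_TT_le hw1 i fun h => ?_).trans ?_
      · rw [h, sub_self, norm_zero] at h1; linarith
      · gcongr
        exact (H.c0 i).le
  refine DifferentiableAt.differentiableWithinAt ?_
  unfold gg
  refine DifferentiableAt.add (DifferentiableAt.inv (by fun_prop) ?_) ?_
  · intro h; rw [sub_eq_zero] at h; rw [← h] at hz'; simp at hz'
  · exact hsumd.differentiableAt (isOpen_ball.mem_nhds (mem_ball_zero_iff.2 hr1))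

theorem isPeakSet : IsPeakSet α (insert 1 (range ζ)) := by
  obtain ⟨C, hC⟩ := H.hh_lipschitz
  refine ⟨H.hlim.isCompact_insert_range_of_cofinite.isClosed, ?_,
    fun z => 1 - hh α κ ζ s z, ⟨?_, ?_, C, ?_⟩, ?_, ?_⟩
  · rintro z (rfl | ⟨i, rfl⟩)
    · simp
    · simp [H.norm_ζ]
  · refine DifferentiableOn.analyticOnNhd ?_ isOpen_ball
    refine (differentiableOn_const _).sub ?_
    refine DifferentiableOn.congr (f := fun z => (1 + gg α κ ζ s z)⁻¹) ?_ ?_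
    · refine ((differentiableOn_const _).add H.differentiableOn_gg).inv fun z hz => ?_
      exact norm_pos_iff.1 ((norm_nonneg _).trans_lt (norm_lt_norm_one_add
        (H.re_gg_nonneg (mem_ball_zero_iff.1 hz).le (H.notMem_of_ball hz))))
    · intro z hz
      rw [hh, if_neg (H.notMem_of_ball hz)]
  · refine continuousOn_const.sub fun z hz => ?_
    rw [ContinuousWithinAt, tendsto_iff_norm_sub_tendsto_zero]
    have h1 : Tendsto (fun w => C * ‖w - z‖ ^ α) (𝓝[closedBall 0 1] z) (𝓝 0) := by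
      have : ContinuousAt (fun w => C * ‖w - z‖ ^ α) z :=
        continuousAt_const.mul (ContinuousAt.rpow_const (by fun_prop) (Or.inr H.α0.le))
      have h2 := this.tendsto
      simp only [sub_self, norm_zero, zero_rpow H.α0.ne', mul_zero] at h2
      exact h2.mono_left nhdsWithin_le_nhds
    refine squeeze_zero' (Eventually.of_forall fun _ => norm_nonneg _) ?_ h1
    filter_upwards [self_mem_nhdsWithin] with w hw
    exact hC w z (mem_closedBall_zero_iff.1 hw) (mem_closedBall_zero_iff.1 hz)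
  · intro z hz w hw
    have := hC z w (mem_sphere_zero_iff_norm.1 hz).le (mem_sphere_zero_iff_norm.1 hw).le
    rwa [show 1 - hh α κ ζ s z - (1 - hh α κ ζ s w) = -(hh α κ ζ s z - hh α κ ζ s w) by ring,
      norm_neg]
  · intro z hz
    simp only [hh, if_pos hz, sub_zero]
  · intro z hz hzE
    have h3 := norm_lt_norm_one_add (H.re_gg_nonneg (mem_sphere_zero_iff_norm.1 hz).le hzE)
    have h4 : 0 < ‖1 + gg α κ ζ s z‖ := (norm_nonneg _).trans_lt h3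
    have h5 := norm_pos_iff.1 h4
    have : 1 - hh α κ ζ s z = gg α κ ζ s z / (1 + gg α κ ζ s z) := by
      rw [hh, if_neg hzE]; field_simp; ring
    simp only [this, norm_div]
    exact (div_lt_one h4).2 h3

end Good
end

end Pool.Agent.MP_129fce_an
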